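import Pool.Agent.Lib.MP_bd65ca_an.Oct.Defs

/-!
# The octahedron: finite combinatorics in Z/2n
-/

open Finset MeasureTheory

namespace Pool.Agent.MPbd65ca.Oct

namespace Comb

/-- Sums over a range as sums over `ZMod N`. -/
theorem sum_range_zmod {N : ℕ} [NeZero N] (f : ZMod N → ℝ) :
    ∑ i ∈ range N, f (i : ZMod N) = ∑ a : ZMod N, f a := by
  refine Finset.sum_nbij' (fun i => (i : ZMod N)) (fun a => a.val) ?_ ?_ ?_ ?_ ?_
  · intro i _; exact Finset.mem_univ _
  · intro a _; exact Finset.mem_range.2 (ZMod.val_lt a)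
  · intro i hi
    exact ZMod.val_cast_of_lt (Finset.mem_range.1 hi)
  · intro a _
    exact ZMod.natCast_zmod_val a
  · intro i _; rfl

theorem sum_range_two_mul (n : ℕ) (f : ℕ → ℝ) :
    ∑ i ∈ range (2 * n), f i = ∑ j ∈ range n, (f (2 * j) + f (2 * j + 1)) := by
  induction n with
  | zero => simp
  | succ n ih =>
    rw [show 2 * (n + 1) = 2 * n + 1 + 1 from by ring, Finset.sum_range_succ,
      Finset.sum_range_succ, ih, Finset.sum_range_succ]
    ring

/-- Parity. -/
def par (n : ℕ) : ZMod (2 * n) →+* ZMod 2 := ZMod.castHom (Dvd.intro n rfl) (ZMod 2)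

theorem par_nat (n i : ℕ) : par n (i : ZMod (2 * n)) = (i : ZMod 2) := map_natCast _ _

theorem two_zero : (2 : ZMod 2) = 0 := by decide

theorem par_neg (n : ℕ) (a : ZMod (2 * n)) : par n (-a) = par n a := by
  rw [map_neg]
  have : ∀ x : ZMod 2, -x = x := by decide
  exact this _

/-- Sum over the odd residues. -/
theorem sum_odd {n : ℕ} [NeZero (2 * n)] (f : ZMod (2 * n) → ℝ) :
    ∑ a : ZMod (2 * n), (if par n a ≠ 0 then f a else 0) =
      ∑ j ∈ range n, f ((2 * j + 1 : ℕ) : ZMod (2 * n)) := by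
  rw [← sum_range_zmod, sum_range_two_mul]
  apply Finset.sum_congr rfl
  intro j _
  have h1 : par n ((2 * j : ℕ) : ZMod (2 * n)) = 0 := by
    rw [par_nat, Nat.cast_mul, Nat.cast_ofNat, two_zero, zero_mul]
  have h2 : par n ((2 * j + 1 : ℕ) : ZMod (2 * n)) ≠ 0 := by
    rw [par_nat, Nat.cast_add, Nat.cast_mul, Nat.cast_ofNat, two_zero, zero_mul, zero_add,
      Nat.cast_one]
    decide
  rw [if_neg (fun h => h h1), if_pos h2, zero_add]

/-- Sum over the residues of the other parity. -/
theorem sum_other {n : ℕ} [NeZero (2 * n)] (c : ZMod (2 * n)) (f : ZMod (2 * n) → ℝ) :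
    ∑ a : ZMod (2 * n), (if par n a ≠ par n c then f a else 0) =
      ∑ j ∈ range n, f (c + ((2 * j + 1 : ℕ) : ZMod (2 * n))) := by
  rw [← sum_odd (fun d => f (c + d))]
  rw [← Equiv.sum_comp (Equiv.addLeft c) (fun a => if par n a ≠ par n c then f a else 0)]
  apply Finset.sum_congr rfl
  intro d _
  simp only [Equiv.coe_addLeft, map_add, ne_eq, add_eq_left]

theorem sum_other' {n : ℕ} [NeZero (2 * n)] (c : ZMod (2 * n)) (f : ZMod (2 * n) → ℝ) :
    ∑ a : ZMod (2 * n), (if par n a ≠ par n c then f a else 0) =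
      ∑ j ∈ range n, f (c - ((2 * j + 1 : ℕ) : ZMod (2 * n))) := by
  have h := sum_other (-c) (fun a => f (-a))
  rw [← Equiv.sum_comp (Equiv.neg (ZMod (2 * n)))
    (fun a => if par n a ≠ par n (-c) then f (-a) else 0)] at h
  simp only [Equiv.neg_apply, par_neg, neg_neg] at h
  rw [h]
  apply Finset.sum_congr rfl
  intro j _
  congr 1
  ring

section

variable {n : ℕ} [NeZero (2 * n)]

/-- The main identity and inequality on the group. -/
theorem main (hn : 0 < n) (Q : ZMod (2 * n) → ZMod (2 * n) → ZMod (2 * n) → ℝ)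
    (h0 : ∀ a b c, 0 ≤ Q a b c) (hneg : ∀ a b c, Q (-a) b c = Q a b c)
    (hs1 : ∀ a b c, Q a b c = Q b a c) (hs2 : ∀ a b c, Q a b c = Q a c b) :
    6 * ∑ j ∈ range n, ∑ l : ZMod (2 * n), Q (l + j + 1) (l + j + 1) (l - j) ≤
      ∑ a, ∑ b, ∑ c, (if par n a = par n b ∧ par n b = par n c then 0 else Q a b c) +
      3 * ∑ j ∈ range n, (Q 0 0 ((2 * j + 1 : ℕ) : ZMod (2 * n)) +
        Q (n : ZMod (2 * n)) (n : ZMod (2 * n))
          ((n : ZMod (2 * n)) - ((2 * j + 1 : ℕ) : ZMod (2 * n)))) := by
  classical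
  -- the indicator of a coincidence
  let I : ZMod (2 * n) → ZMod (2 * n) → ZMod (2 * n) → ℝ := fun a b c =>
    if (b = a ∨ b = -a) ∧ par n c ≠ par n a then 1 else 0
  -- the sum over the coincidences
  let T : ℝ := ∑ a, ∑ b, ∑ c, I a b c * Q a b c
  have hT13 : ∑ a, ∑ b, ∑ c, I a c b * Q a b c = T := by
    show _ = ∑ a, ∑ b, ∑ c, I a b c * Q a b c
    apply Finset.sum_congr rfl
    intro a _
    rw [Finset.sum_comm]
    apply Finset.sum_congr rfl
    intro c _
    apply Finset.sum_congr rfl
    intro b _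
    rw [hs2]
  have hT23 : ∑ a, ∑ b, ∑ c, I b c a * Q a b c = T := by
    rw [← hT13, Finset.sum_comm]
    apply Finset.sum_congr rfl
    intro b _
    apply Finset.sum_congr rfl
    intro a _
    apply Finset.sum_congr rfl
    intro c _
    rw [hs1]
  have hpt : ∀ a b c, I a b c * Q a b c + I a c b * Q a b c + I b c a * Q a b c ≤
      (if par n a = par n b ∧ par n b = par n c then 0 else Q a b c) := by
    intro a b c
    have hpar : ∀ x y : ZMod (2 * n), (y = x ∨ y = -x) → par n y = par n x := by
      rintro x y (rfl | rfl)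
      · rfl
      · exact par_neg n x
    show (if (b = a ∨ b = -a) ∧ par n c ≠ par n a then (1 : ℝ) else 0) * Q a b c +
      (if (c = a ∨ c = -a) ∧ par n b ≠ par n a then (1 : ℝ) else 0) * Q a b c +
      (if (c = b ∨ c = -b) ∧ par n a ≠ par n b then (1 : ℝ) else 0) * Q a b c ≤ _
    have hQ := h0 a b c
    by_cases h1 : (b = a ∨ b = -a) ∧ par n c ≠ par n a
    · have e1 := hpar a b h1.1
      rw [if_pos h1, if_neg (fun h => h.2 e1), if_neg (fun h => h.2 e1.symm),
        if_neg (fun h => h1.2 (h.2.symm.trans h.1.symm))]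
      linarith
    · rw [if_neg h1]
      by_cases h2 : (c = a ∨ c = -a) ∧ par n b ≠ par n a
      · have e1 := hpar a c h2.1
        have h3 : ¬ ((c = b ∨ c = -b) ∧ par n a ≠ par n b) := by
          rintro ⟨h3, -⟩
          exact h2.2 ((hpar b c h3).symm.trans e1)
        rw [if_pos h2, if_neg h3, if_neg (fun h => h2.2 h.1.symm)]
        linarith
      · rw [if_neg h2]
        by_cases h3 : (c = b ∨ c = -b) ∧ par n a ≠ par n b
        · rw [if_pos h3, if_neg (fun h => h3.2 h.1)]
          linarith
        · rw [if_neg h3]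
          split_ifs
          · linarith
          · linarith
  have h3T : 3 * T ≤ ∑ a, ∑ b, ∑ c,
      (if par n a = par n b ∧ par n b = par n c then 0 else Q a b c) := by
    have h4 : ∑ a, ∑ b, ∑ c, (I a b c * Q a b c + I a c b * Q a b c + I b c a * Q a b c) ≤
        ∑ a, ∑ b, ∑ c, (if par n a = par n b ∧ par n b = par n c then 0 else Q a b c) :=
      Finset.sum_le_sum fun a _ => Finset.sum_le_sum fun b _ => Finset.sum_le_sum fun c _ =>
        hpt a b c
    have h5 : ∑ a, ∑ b, ∑ c, (I a b c * Q a b c + I a c b * Q a b c + I b c a * Q a b c) =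
        T + T + T := by
      simp only [Finset.sum_add_distrib]
      rw [hT13, hT23]
    linarith
  -- evaluation of T
  let S : ℝ := ∑ c, ∑ a, (if par n a ≠ par n c then Q a a c else 0)
  let S0 : ℝ := ∑ c, ∑ a, (if par n a ≠ par n c then (if a = -a then Q a a c else 0) else 0)
  have hT : T = 2 * S - S0 := by
    have h6 : T = ∑ c, ∑ a, (if par n a ≠ par n c then
        (2 * Q a a c - (if a = -a then Q a a c else 0)) else 0) := by
      show ∑ a, ∑ b, ∑ c, I a b c * Q a b c = _
      have h7 : ∀ a, ∑ b, ∑ c, I a b c * Q a b c = ∑ c, (if par n a ≠ par n c then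
        (2 * Q a a c - (if a = -a then Q a a c else 0)) else 0) := by
        intro a
        rw [Finset.sum_comm]
        apply Finset.sum_congr rfl
        intro c _
        by_cases hc : par n a ≠ par n c
        · rw [if_pos hc]
          have h8 : ∀ b, I a b c * Q a b c = (if b = a then Q a a c else 0) +
              (if b = -a then Q a a c else 0) -
              (if b = a then (if a = -a then Q a a c else 0) else 0) := by
            intro b
            show (if (b = a ∨ b = -a) ∧ par n c ≠ par n a then (1 : ℝ) else 0) * Q a b c = _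
            have hc' : par n c ≠ par n a := fun h => hc h.symm
            by_cases hb : b = a
            · subst hb
              rw [if_pos ⟨Or.inl rfl, hc'⟩, if_pos rfl, if_pos rfl]
              ring
            · by_cases hb' : b = -a
              · rw [if_pos ⟨Or.inr hb', hc'⟩, if_neg hb, if_pos hb', if_neg hb, hb', hs1, hneg]
                ring
              · rw [if_neg (by rintro ⟨h | h, -⟩; exacts [hb h, hb' h]), if_neg hb, if_neg hb',
                  if_neg hb]
                ring
          simp only [h8]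
          rw [Finset.sum_sub_distrib, Finset.sum_add_distrib]
          simp only [Finset.sum_ite_eq', Finset.mem_univ, if_true]
          ring
        · rw [if_neg hc]
          apply Finset.sum_eq_zero
          intro b _
          show (if (b = a ∨ b = -a) ∧ par n c ≠ par n a then (1 : ℝ) else 0) * Q a b c = 0
          rw [if_neg (fun h => hc (fun h' => h.2 h'.symm)), zero_mul]
      simp only [h7]
      rw [Finset.sum_comm]
    rw [h6]
    show _ = 2 * (∑ c, ∑ a, (if par n a ≠ par n c then Q a a c else 0)) -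
      ∑ c, ∑ a, (if par n a ≠ par n c then (if a = -a then Q a a c else 0) else 0)
    rw [Finset.mul_sum, ← Finset.sum_sub_distrib]
    apply Finset.sum_congr rfl
    intro c _
    rw [Finset.mul_sum, ← Finset.sum_sub_distrib]
    apply Finset.sum_congr rfl
    intro a _
    by_cases hc : par n a ≠ par n c
    · rw [if_pos hc, if_pos hc, if_pos hc]
    · rw [if_neg hc, if_neg hc, if_neg hc]
      ring
  -- evaluation of S
  have hS : ∑ j ∈ range n, ∑ l : ZMod (2 * n), Q (l + j + 1) (l + j + 1) (l - j) = S := by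
    have h9 : ∀ j : ℕ, ∑ l : ZMod (2 * n), Q (l + j + 1) (l + j + 1) (l - j) =
        ∑ c : ZMod (2 * n), Q (c + ((2 * j + 1 : ℕ) : ZMod (2 * n)))
          (c + ((2 * j + 1 : ℕ) : ZMod (2 * n))) c := by
      intro j
      rw [← Equiv.sum_comp (Equiv.addRight (j : ZMod (2 * n)))
        (fun l : ZMod (2 * n) => Q (l + j + 1) (l + j + 1) (l - j))]
      apply Finset.sum_congr rfl
      intro c _
      simp only [Equiv.coe_addRight]
      have e1 : c + (j : ZMod (2 * n)) + j + 1 = c + ((2 * j + 1 : ℕ) : ZMod (2 * n)) := by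
        push_cast
        ring
      have e2 : c + (j : ZMod (2 * n)) - j = c := by ring
      rw [e1, e2]
    simp only [h9]
    rw [Finset.sum_comm]
    apply Finset.sum_congr rfl
    intro c _
    rw [sum_other c (fun a => Q a a c)]
  -- evaluation of S0
  have hn0 : (0 : ZMod (2 * n)) ≠ (n : ZMod (2 * n)) := by
    intro h
    have h1 := (ZMod.natCast_eq_zero_iff n (2 * n)).1 h.symm
    have h2 := Nat.le_of_dvd hn h1
    omega
  have hS0 : S0 = ∑ j ∈ range n, (Q 0 0 ((2 * j + 1 : ℕ) : ZMod (2 * n)) +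
        Q (n : ZMod (2 * n)) (n : ZMod (2 * n))
          ((n : ZMod (2 * n)) - ((2 * j + 1 : ℕ) : ZMod (2 * n)))) := by
    have hfix : ∀ a : ZMod (2 * n), a = -a ↔ a = 0 ∨ a = (n : ZMod (2 * n)) := by
      intro a
      constructor
      · intro h
        rcases (ZMod.neg_eq_self_iff a).1 h.symm with h1 | h1
        · exact Or.inl h1
        · right
          have h2 : a.val = n := by omega
          have h3 := ZMod.natCast_zmod_val a
          rw [h2] at h3
          exact h3.symm
      · rintro (h | h)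
        · rw [h, neg_zero]
        · rw [h, eq_neg_iff_add_eq_zero, ← Nat.cast_add, ← two_mul, ZMod.natCast_self]
    have h10 : S0 = ∑ a, ∑ c, (if par n a ≠ par n c then (if a = -a then Q a a c else 0) else 0) :=
      Finset.sum_comm
    have h11 : ∀ a : ZMod (2 * n),
        ∑ c, (if par n a ≠ par n c then (if a = -a then Q a a c else 0) else 0) =
        (if a = 0 then ∑ c, (if par n c ≠ par n (0 : ZMod (2 * n)) then Q 0 0 c else 0) else 0) +
        (if a = (n : ZMod (2 * n)) then
          ∑ c, (if par n c ≠ par n (n : ZMod (2 * n)) then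
            Q (n : ZMod (2 * n)) (n : ZMod (2 * n)) c else 0) else 0) := by
      intro a
      by_cases ha : a = 0
      · have ha' : a ≠ (n : ZMod (2 * n)) := by rw [ha]; exact hn0
        rw [if_pos ha, if_neg ha', add_zero]
        apply Finset.sum_congr rfl
        intro c _
        rw [if_pos ((hfix a).2 (Or.inl ha)), ha]
        by_cases hc : par n c = par n (0 : ZMod (2 * n))
        · rw [if_neg (fun h => h hc.symm), if_neg (fun h => h hc)]
        · rw [if_pos (fun h => hc h.symm), if_pos hc]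
      · by_cases ha' : a = (n : ZMod (2 * n))
        · rw [if_neg ha, if_pos ha', zero_add]
          apply Finset.sum_congr rfl
          intro c _
          rw [if_pos ((hfix a).2 (Or.inr ha')), ha']
          by_cases hc : par n c = par n (n : ZMod (2 * n))
          · rw [if_neg (fun h => h hc.symm), if_neg (fun h => h hc)]
          · rw [if_pos (fun h => hc h.symm), if_pos hc]
        · rw [if_neg ha, if_neg ha', add_zero]
          apply Finset.sum_eq_zero
          intro c _
          have hne : ¬ a = -a := by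
            intro h
            rcases (hfix a).1 h with h | h
            · exact ha h
            · exact ha' h
          simp only [if_neg hne, ite_self]
    rw [h10]
    simp only [h11]
    rw [Finset.sum_add_distrib, Finset.sum_add_distrib]
    simp only [Finset.sum_ite_eq', Finset.mem_univ, if_true]
    congr 1
    · rw [sum_other]
      simp only [zero_add]
    · rw [sum_other']
  rw [hS, ← hS0]
  linarith

end

end Comb

theorem comb {n : ℕ} (hn : 0 < n) {P : ℝ → ℝ → ℝ → ℝ} (h0 : ∀ x y z, 0 ≤ P x y z)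
    (hper : ∀ x y z, P (x + 2 * Real.pi) y z = P x y z) (heven : ∀ x y z, P (-x) y z = P x y z)
    (hs1 : ∀ x y z, P x y z = P y x z) (hs2 : ∀ x y z, P x y z = P x z y) :
    6 * ∑ j ∈ range n, ∑ l ∈ range (2 * n), P (nd (2 * n) l + nd (2 * n) j)
        (nd (2 * n) l + nd (2 * n) j) (nd (2 * n) l - nd (2 * n) j)
      ≤ ∑ i ∈ range (2 * n), ∑ j ∈ range (2 * n), ∑ k ∈ range (2 * n),
          (if i % 2 = j % 2 ∧ j % 2 = k % 2 then 0 else
            P (Real.pi * i / n) (Real.pi * j / n) (Real.pi * k / n))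
        + 3 * ∑ j ∈ range n, (P 0 0 (2 * nd (2 * n) j)
          + P Real.pi Real.pi (Real.pi - 2 * nd (2 * n) j)) := by
  have hN : NeZero (2 * n) := ⟨by omega⟩
  have hnR : (n : ℝ) ≠ 0 := by
    have : (0 : ℝ) < n := by exact_mod_cast hn
    exact this.ne'
  let e : ZMod (2 * n) → ℝ := fun a => Real.pi * (a.val : ℝ) / n
  -- periodicity
  have hp1 : ∀ (i : ℤ) (y z : ℝ), P (Real.pi * i / n) y z = P (e (i : ZMod (2 * n))) y z := by
    intro i y z
    have hP : Function.Periodic (fun x => P x y z) (2 * Real.pi) := fun x => hper x y z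
    have h1 : ((i : ZMod (2 * n)).val : ℤ) = i % ((2 * n : ℕ) : ℤ) := ZMod.val_intCast i
    have h2 : i = ((i : ZMod (2 * n)).val : ℤ) + ((2 * n : ℕ) : ℤ) * (i / ((2 * n : ℕ) : ℤ)) := by
      rw [h1]
      exact (Int.emod_add_mul_ediv i ((2 * n : ℕ) : ℤ)).symm
    have h3 : Real.pi * (i : ℝ) / n =
        e (i : ZMod (2 * n)) + ((i / ((2 * n : ℕ) : ℤ) : ℤ) : ℝ) * (2 * Real.pi) := by
      show _ = Real.pi * ((i : ZMod (2 * n)).val : ℝ) / n + _
      have h4 : (i : ℝ) = ((i : ZMod (2 * n)).val : ℝ) +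
          (2 * (n : ℝ)) * ((i / ((2 * n : ℕ) : ℤ) : ℤ) : ℝ) := by
        have h5 := congrArg (fun t : ℤ => (t : ℝ)) h2
        generalize i / ((2 * n : ℕ) : ℤ) = q at h5 ⊢
        simp only [Int.cast_add, Int.cast_mul, Int.cast_natCast] at h5
        have h6 : (((2 * n : ℕ) : ℝ)) = 2 * (n : ℝ) := by push_cast; ring
        rw [← h6]
        exact h5
      generalize i / ((2 * n : ℕ) : ℤ) = q at h4 ⊢
      rw [h4]
      field_simp
    rw [h3]
    exact hP.int_mul (i / ((2 * n : ℕ) : ℤ)) (e (i : ZMod (2 * n)))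
  have hp2 : ∀ (i : ℤ) (x z : ℝ), P x (Real.pi * i / n) z = P x (e (i : ZMod (2 * n))) z := by
    intro i x z
    rw [hs1, hp1, hs1]
  have hp3 : ∀ (i : ℤ) (x y : ℝ), P x y (Real.pi * i / n) = P x y (e (i : ZMod (2 * n))) := by
    intro i x y
    rw [hs2, hp2, hs2]
  let Q : ZMod (2 * n) → ZMod (2 * n) → ZMod (2 * n) → ℝ := fun a b c => P (e a) (e b) (e c)
  have hp : ∀ i j k : ℤ, P (Real.pi * i / n) (Real.pi * j / n) (Real.pi * k / n) =
      Q (i : ZMod (2 * n)) (j : ZMod (2 * n)) (k : ZMod (2 * n)) := by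
    intro i j k
    rw [hp1, hp2, hp3]
  have hneg : ∀ a b c, Q (-a) b c = Q a b c := by
    intro a b c
    show P (e (-a)) (e b) (e c) = P (e a) (e b) (e c)
    have h1 : ((-(a.val : ℤ) : ℤ) : ZMod (2 * n)) = -a := by
      rw [Int.cast_neg, Int.cast_natCast, ZMod.natCast_zmod_val]
    rw [← h1, ← hp1]
    have h2 : Real.pi * ((-(a.val : ℤ) : ℤ) : ℝ) / n = -(e a) := by
      show _ = -(Real.pi * (a.val : ℝ) / n)
      push_cast
      ring
    rw [h2, heven]
  have key := Comb.main hn Q (fun a b c => h0 _ _ _) hneg (fun a b c => hs1 _ _ _)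
    (fun a b c => hs2 _ _ _)
  -- the left-hand side
  have hL : ∑ j ∈ range n, ∑ l ∈ range (2 * n), P (nd (2 * n) l + nd (2 * n) j)
        (nd (2 * n) l + nd (2 * n) j) (nd (2 * n) l - nd (2 * n) j) =
      ∑ j ∈ range n, ∑ l : ZMod (2 * n), Q (l + j + 1) (l + j + 1) (l - j) := by
    apply Finset.sum_congr rfl
    intro j _
    rw [← Comb.sum_range_zmod]
    apply Finset.sum_congr rfl
    intro l _
    have h1 : nd (2 * n) l + nd (2 * n) j = Real.pi * (((l : ℤ) + j + 1 : ℤ) : ℝ) / n := by
      unfold nd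
      push_cast
      field_simp
      ring
    have h2 : nd (2 * n) l - nd (2 * n) j = Real.pi * (((l : ℤ) - j : ℤ) : ℝ) / n := by
      unfold nd
      push_cast
      field_simp
      ring
    rw [h1, h2, hp]
    push_cast
    rfl
  -- the right-hand side
  have hR : ∑ i ∈ range (2 * n), ∑ j ∈ range (2 * n), ∑ k ∈ range (2 * n),
          (if i % 2 = j % 2 ∧ j % 2 = k % 2 then 0 else
            P (Real.pi * i / n) (Real.pi * j / n) (Real.pi * k / n)) =
      ∑ a, ∑ b, ∑ c, (if Comb.par n a = Comb.par n b ∧ Comb.par n b = Comb.par n c then 0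
        else Q a b c) := by
    rw [← Comb.sum_range_zmod]
    apply Finset.sum_congr rfl
    intro i _
    rw [← Comb.sum_range_zmod]
    apply Finset.sum_congr rfl
    intro j _
    rw [← Comb.sum_range_zmod]
    apply Finset.sum_congr rfl
    intro k _
    have h1 := hp i j k
    simp only [Int.cast_natCast] at h1
    rw [h1, Comb.par_nat, Comb.par_nat, Comb.par_nat]
    simp only [ZMod.natCast_eq_natCast_iff']
  have hZ : ∀ j : ℕ, P 0 0 (2 * nd (2 * n) j) + P Real.pi Real.pi (Real.pi - 2 * nd (2 * n) j) =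
      Q 0 0 ((2 * j + 1 : ℕ) : ZMod (2 * n)) +
        Q (n : ZMod (2 * n)) (n : ZMod (2 * n))
          ((n : ZMod (2 * n)) - ((2 * j + 1 : ℕ) : ZMod (2 * n))) := by
    intro j
    have h1 := hp 0 0 ((2 * j + 1 : ℕ) : ℤ)
    have h2 := hp n n ((n : ℤ) - ((2 * j + 1 : ℕ) : ℤ))
    have e1 : Real.pi * ((0 : ℤ) : ℝ) / n = 0 := by simp
    have e2 : Real.pi * (((2 * j + 1 : ℕ) : ℤ) : ℝ) / n = 2 * nd (2 * n) j := by
      unfold nd
      push_cast
      field_simp
    have e3 : Real.pi * ((n : ℤ) : ℝ) / n = Real.pi := by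
      rw [Int.cast_natCast]
      field_simp
    have e4 : Real.pi * (((n : ℤ) - ((2 * j + 1 : ℕ) : ℤ) : ℤ) : ℝ) / n =
        Real.pi - 2 * nd (2 * n) j := by
      unfold nd
      push_cast
      field_simp
    rw [e1, e2] at h1
    rw [e3, e4] at h2
    rw [h1, h2]
    simp only [Int.cast_zero, Int.cast_natCast, Int.cast_sub]
  rw [hL, hR]
  simp only [hZ]
  exact key

end Pool.Agent.MPbd65ca.Oct
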