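import Pool.Agent.Lib.MP_bd65ca_an.Oct.Disc

/-!
# The octahedron is a Turán domain: from the discrete theorem to the continuous one
-/

open Finset MeasureTheory Filter FourierTransform
open scoped RealInnerProductSpace Topology

namespace Pool.Agent.MPbd65ca.Oct

/-- The standard octahedron. -/
def oct : Set (E 3) := {ξ | |ξ 0| + |ξ 1| + |ξ 2| ≤ 1}

lemma sum_sin (n : ℕ) (t : ℝ) :
    ∑ k ∈ Ioo (-(2 * n : ℤ)) (2 * n), Real.sin (k * t) = 0 := by
  have h : ∑ k ∈ Ioo (-(2 * n : ℤ)) (2 * n), Real.sin (k * t) =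
      ∑ k ∈ Ioo (-(2 * n : ℤ)) (2 * n), -Real.sin (k * t) := by
    refine Finset.sum_nbij' (fun k => -k) (fun k => -k) ?_ ?_ ?_ ?_ ?_
    · intro k hk; simp only [Finset.mem_Ioo] at hk ⊢; omega
    · intro k hk; simp only [Finset.mem_Ioo] at hk ⊢; omega
    · intro k _; simp
    · intro k _; simp
    · intro k _; push_cast; rw [neg_mul, Real.sin_neg, neg_neg]
  rw [Finset.sum_neg_distrib] at h
  linarith

/-- Sum of the cosines. -/
lemma sum_cos3 (n : ℕ) (s t r : ℝ) :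
    ∑ k ∈ Ioo (-(2 * n : ℤ)) (2 * n), ∑ l ∈ Ioo (-(2 * n : ℤ)) (2 * n),
      ∑ m ∈ Ioo (-(2 * n : ℤ)) (2 * n), Real.cos (k * s + l * t + m * r) =
    (∑ k ∈ Ioo (-(2 * n : ℤ)) (2 * n), Real.cos (k * s)) *
      (∑ k ∈ Ioo (-(2 * n : ℤ)) (2 * n), Real.cos (k * t)) *
      (∑ k ∈ Ioo (-(2 * n : ℤ)) (2 * n), Real.cos (k * r)) := by
  have h1 : ∀ k l : ℤ, ∑ m ∈ Ioo (-(2 * n : ℤ)) (2 * n), Real.cos (k * s + l * t + m * r) =
      Real.cos (k * s + l * t) * ∑ m ∈ Ioo (-(2 * n : ℤ)) (2 * n), Real.cos (m * r) := by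
    intro k l
    have : ∀ m : ℤ, Real.cos (k * s + l * t + m * r) =
      Real.cos (k * s + l * t) * Real.cos (m * r) - Real.sin (k * s + l * t) * Real.sin (m * r) :=
      fun m => Real.cos_add _ _
    simp only [this, Finset.sum_sub_distrib, ← Finset.mul_sum, sum_sin, mul_zero, sub_zero]
  have h2 : ∀ k : ℤ, ∑ l ∈ Ioo (-(2 * n : ℤ)) (2 * n), Real.cos (k * s + l * t) =
      Real.cos (k * s) * ∑ m ∈ Ioo (-(2 * n : ℤ)) (2 * n), Real.cos (m * t) := by
    intro k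
    have : ∀ m : ℤ, Real.cos (k * s + m * t) =
      Real.cos (k * s) * Real.cos (m * t) - Real.sin (k * s) * Real.sin (m * t) :=
      fun m => Real.cos_add _ _
    simp only [this, Finset.sum_sub_distrib, ← Finset.mul_sum, sum_sin, mul_zero, sub_zero]
  simp only [h1, ← Finset.sum_mul, h2]

/-- The coefficients. -/
noncomputable def cf (F : E 3 → ℝ) (y : Fin 3 → E 3 → ℝ) (k l m : ℤ) : ℝ :=
  ∫ ω, F ω * (1 / 6 * ∑ σ : Equiv.Perm (Fin 3),
      Real.cos (k * y (σ 0) ω) * Real.cos (l * y (σ 1) ω) * Real.cos (m * y (σ 2) ω))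

lemma cf_swap12 (F : E 3 → ℝ) (y : Fin 3 → E 3 → ℝ) (k l m : ℤ) : cf F y k l m = cf F y l k m := by
  unfold cf
  congr 1
  ext ω
  congr 2
  refine Fintype.sum_equiv (Equiv.mulRight (Equiv.swap 0 1)) _ _ fun σ => ?_
  simp only [Equiv.coe_mulRight, Equiv.Perm.mul_apply, Equiv.swap_apply_left,
    Equiv.swap_apply_right]
  rw [Equiv.swap_apply_of_ne_of_ne (by decide) (by decide)]
  ring

lemma cf_swap23 (F : E 3 → ℝ) (y : Fin 3 → E 3 → ℝ) (k l m : ℤ) : cf F y k l m = cf F y k m l := by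
  unfold cf
  congr 1
  ext ω
  congr 2
  refine Fintype.sum_equiv (Equiv.mulRight (Equiv.swap 1 2)) _ _ fun σ => ?_
  simp only [Equiv.coe_mulRight, Equiv.Perm.mul_apply, Equiv.swap_apply_left,
    Equiv.swap_apply_right]
  rw [Equiv.swap_apply_of_ne_of_ne (by decide) (by decide)]
  ring

lemma integral_sum3 (S : Finset ℤ) {h : ℤ → ℤ → ℤ → E 3 → ℝ}
    (hi : ∀ k l m, Integrable (h k l m)) :
    ∑ k ∈ S, ∑ l ∈ S, ∑ m ∈ S, ∫ ω, h k l m ω = ∫ ω, ∑ k ∈ S, ∑ l ∈ S, ∑ m ∈ S, h k l m ω := by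
  rw [integral_finsetSum _ fun k _ => integrable_finsetSum _ fun l _ =>
    integrable_finsetSum _ fun m _ => hi k l m]
  refine Finset.sum_congr rfl fun k _ => ?_
  rw [integral_finsetSum _ fun l _ => integrable_finsetSum _ fun m _ => hi k l m]
  refine Finset.sum_congr rfl fun l _ => ?_
  rw [integral_finsetSum _ fun m _ => hi k l m]

lemma sum_comm4 {ι : Type*} [Fintype ι] (B : Finset ℤ) (g : ι → ℤ → ℤ → ℤ → ℝ) :
    ∑ k ∈ B, ∑ l ∈ B, ∑ m ∈ B, ∑ σ, g σ k l m = ∑ σ, ∑ k ∈ B, ∑ l ∈ B, ∑ m ∈ B, g σ k l m := by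
  calc _ = ∑ k ∈ B, ∑ l ∈ B, ∑ σ, ∑ m ∈ B, g σ k l m :=
        Finset.sum_congr rfl fun k _ => Finset.sum_congr rfl fun l _ => Finset.sum_comm
    _ = ∑ k ∈ B, ∑ σ, ∑ l ∈ B, ∑ m ∈ B, g σ k l m :=
        Finset.sum_congr rfl fun k _ => Finset.sum_comm
    _ = _ := Finset.sum_comm

lemma integrable_mul_bdd {F : E 3 → ℝ} (hF : Integrable F) {g : E 3 → ℝ} (hg : Continuous g)
    {C : ℝ} (hC : ∀ x, |g x| ≤ C) :
    Integrable (fun x => F x * g x) := by
  have := hF.bdd_mul (c := C) hg.aestronglyMeasurable (ae_of_all _ (fun x => by simpa using hC x))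
  simpa [mul_comm] using this

section

variable {F : E 3 → ℝ} (hF : Integrable F) {y : Fin 3 → E 3 → ℝ} (hy : ∀ i, Continuous (y i))
include hF hy

/-- the value at the origin. -/
lemma sum_cf (n : ℕ) :
    PP n (cf F y) 0 0 0 = ∑ k ∈ Ioo (-(2 * n : ℤ)) (2 * n), ∑ l ∈ Ioo (-(2 * n : ℤ)) (2 * n),
      ∑ m ∈ Ioo (-(2 * n : ℤ)) (2 * n), ∫ ω, F ω * Real.cos (k * y 0 ω + l * y 1 ω + m * y 2 ω) := by
  have i1 : ∀ k l m : ℤ, Integrable (fun ω => F ω * Real.cos (k * y 0 ω + l * y 1 ω + m * y 2 ω)) := by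
    intro k l m
    exact integrable_mul_bdd hF (by fun_prop) (fun x => Real.abs_cos_le_one _)
  have i2 : ∀ k l m : ℤ, Integrable (fun ω => F ω * (1 / 6 * ∑ σ : Equiv.Perm (Fin 3),
      Real.cos (k * y (σ 0) ω) * Real.cos (l * y (σ 1) ω) * Real.cos (m * y (σ 2) ω))) := by
    intro k l m
    refine integrable_mul_bdd hF (by fun_prop) (C := 1 / 6 * ∑ σ : Equiv.Perm (Fin 3), 1) (fun x => ?_)
    rw [abs_mul, abs_of_pos (by norm_num : (0:ℝ) < 1 / 6)]
    refine mul_le_mul_of_nonneg_left ((Finset.abs_sum_le_sum_abs _ _).trans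
      (Finset.sum_le_sum fun σ _ => ?_)) (by norm_num)
    rw [abs_mul, abs_mul]
    have h1 := Real.abs_cos_le_one (k * y (σ 0) x)
    have h2 := Real.abs_cos_le_one (l * y (σ 1) x)
    have h3 := Real.abs_cos_le_one (m * y (σ 2) x)
    exact mul_le_one₀ (mul_le_one₀ h1 (abs_nonneg _) h2) (abs_nonneg _) h3
  unfold PP
  simp only [mul_zero, Real.cos_zero, mul_one]
  unfold cf
  rw [integral_sum3 _ i2, integral_sum3 _ i1]
  congr 1
  ext ω
  simp only [← Finset.mul_sum, sum_cos3]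
  congr 1
  set B := Ioo (-(2 * n : ℤ)) (2 * n) with hB
  set D : Fin 3 → ℝ := fun i => ∑ k ∈ B, Real.cos (k * y i ω) with hD
  have e1 : ∀ σ : Equiv.Perm (Fin 3), ∑ k ∈ B, ∑ l ∈ B, ∑ m ∈ B,
      Real.cos (k * y (σ 0) ω) * Real.cos (l * y (σ 1) ω) * Real.cos (m * y (σ 2) ω) =
      D 0 * D 1 * D 2 := by
    intro σ
    have : ∏ i, D (σ i) = ∏ i, D i := Equiv.prod_comp σ D
    rw [Fin.prod_univ_three, Fin.prod_univ_three] at this
    rw [← this, hD]
    simp only [← Finset.mul_sum, ← Finset.sum_mul]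
  have e2 := sum_comm4 B (fun (σ : Equiv.Perm (Fin 3)) (k l m : ℤ) =>
      Real.cos (k * y (σ 0) ω) * Real.cos (l * y (σ 1) ω) * Real.cos (m * y (σ 2) ω))
  simp only [e1] at e2
  rw [e2, Finset.sum_const, Finset.card_univ, Fintype.card_perm, Fintype.card_fin, nsmul_eq_mul]
  norm_num [Nat.factorial]
  rw [hD]
  ring

lemma cf_supp {n : ℕ} (h : ∀ κ : Fin 3 → ℝ, (2 * n - 1 : ℝ) < ∑ i, |κ i| →
    ∫ ω, F ω * Real.cos (∑ i, κ i * y i ω) = 0) : Supp n (cf F y) := by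
  intro k l m hklm
  have key : ∀ κ : Fin 3 → ℤ, 2 * (n : ℤ) ≤ |κ 0| + |κ 1| + |κ 2| → ∀ σ : Equiv.Perm (Fin 3),
      ∫ ω, F ω * Real.cos (κ 0 * y (σ 0) ω + κ 1 * y (σ 1) ω + κ 2 * y (σ 2) ω) = 0 := by
    intro κ hκ σ
    have h1 := h (fun i => (κ (σ.symm i) : ℝ)) (by
      have : ∑ i, |((κ (σ.symm i) : ℤ) : ℝ)| = ∑ i, |((κ i : ℤ) : ℝ)| :=
        Equiv.sum_comp σ.symm (fun i => |((κ i : ℤ) : ℝ)|)
      rw [this, Fin.sum_univ_three]
      have : ((2 * (n : ℤ) : ℤ) : ℝ) ≤ ((|κ 0| + |κ 1| + |κ 2| : ℤ) : ℝ) := by exact_mod_cast hκ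
      push_cast at this
      linarith)
    have h2 : ∀ ω, ∑ i, (κ (σ.symm i) : ℝ) * y i ω =
        κ 0 * y (σ 0) ω + κ 1 * y (σ 1) ω + κ 2 * y (σ 2) ω := by
      intro ω
      rw [← Equiv.sum_comp σ (fun i => (κ (σ.symm i) : ℝ) * y i ω), Fin.sum_univ_three]
      simp
    simp only [h2] at h1
    exact h1
  have i1 : ∀ (σ : Equiv.Perm (Fin 3)) (k l m : ℝ), Integrable (fun ω => F ω * Real.cos (k * y (σ 0) ω
      + l * y (σ 1) ω + m * y (σ 2) ω)) := by
    intro σ k l m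
    exact integrable_mul_bdd hF (by fun_prop) (fun x => Real.abs_cos_le_one _)
  have e : ∀ ω, F ω * (1 / 6 * ∑ σ : Equiv.Perm (Fin 3),
      Real.cos (k * y (σ 0) ω) * Real.cos (l * y (σ 1) ω) * Real.cos (m * y (σ 2) ω)) =
      ∑ σ : Equiv.Perm (Fin 3), 1 / 24 *
        (F ω * Real.cos (k * y (σ 0) ω + l * y (σ 1) ω + m * y (σ 2) ω)
        + F ω * Real.cos (k * y (σ 0) ω + l * y (σ 1) ω + (-m) * y (σ 2) ω)
        + F ω * Real.cos (k * y (σ 0) ω + (-l) * y (σ 1) ω + m * y (σ 2) ω)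
        + F ω * Real.cos (k * y (σ 0) ω + (-l) * y (σ 1) ω + (-m) * y (σ 2) ω)) := by
    intro ω
    rw [Finset.mul_sum, Finset.mul_sum]
    refine Finset.sum_congr rfl fun σ _ => ?_
    have t1 : ∀ a b c : ℝ, Real.cos a * Real.cos b * Real.cos c = 1 / 4 *
        (Real.cos (a + b + c) + Real.cos (a + b + -c) + Real.cos (a + -b + c)
          + Real.cos (a + -b + -c)) := by
      intro a b c
      simp only [Real.cos_add, Real.sin_add, Real.cos_neg, Real.sin_neg]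
      ring
    rw [t1]
    simp only [neg_mul]
    ring
  unfold cf
  simp only [e]
  rw [integral_finsetSum]
  · refine Finset.sum_eq_zero fun σ _ => ?_
    rw [integral_const_mul, integral_add, integral_add, integral_add]
    · have h1 := key ![k, l, m] (by simpa using hklm) σ
      have h2 := key ![k, l, -m] (by simpa using hklm) σ
      have h3 := key ![k, -l, m] (by simpa using hklm) σ
      have h4 := key ![k, -l, -m] (by simpa using hklm) σ
      simp only [Matrix.cons_val_zero, Matrix.cons_val_one, Matrix.cons_val] at h1 h2 h3 h4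
      push_cast at h2 h3 h4
      rw [h1, h2, h3, h4]
      simp
    · exact i1 σ k l m
    · exact i1 σ k l (-m)
    · exact (i1 σ k l m).add (i1 σ k l (-m))
    · exact i1 σ k (-l) m
    · exact ((i1 σ k l m).add (i1 σ k l (-m))).add (i1 σ k (-l) m)
    · exact i1 σ k (-l) (-m)
  · intro σ _
    exact ((((i1 σ k l m).add (i1 σ k l (-m))).add (i1 σ k (-l) m)).add
      (i1 σ k (-l) (-m))).const_mul _

end

lemma fourier_re {F : E 3 → ℝ} (hF : Integrable F) (ξ : E 3) :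
    (𝓕 (fun x => (F x : ℂ)) ξ).re = ∫ x, F x * Real.cos (2 * Real.pi * ⟪x, ξ⟫) := by
  rw [Real.fourier_eq']
  have hi : Integrable (fun v : E 3 => Complex.exp (((-2 * Real.pi * ⟪v, ξ⟫ : ℝ) : ℂ) * Complex.I) •
      (F v : ℂ)) := by
    refine hF.ofReal.bdd_mul (c := 1) (Continuous.aestronglyMeasurable (by fun_prop)) ?_
    exact ae_of_all _ fun x => (Complex.norm_exp_ofReal_mul_I _).le
  have := integral_re hi
  simp only [RCLike.re_eq_complex_re] at this
  rw [← this]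
  refine integral_congr_ae (ae_of_all _ fun x => ?_)
  simp only [smul_eq_mul, Complex.re_mul_ofReal, Complex.exp_ofReal_mul_I_re]
  rw [show -2 * Real.pi * ⟪x, ξ⟫ = -(2 * Real.pi * ⟪x, ξ⟫) by ring, Real.cos_neg, mul_comm]

/-- The continuous inequality. -/
theorem main_ineq (A : E 3 ≃L[ℝ] E 3) {F : E 3 → ℝ} (hc : Continuous F) (hF : Integrable F)
    (h0 : ∀ x, 0 ≤ F x) (hsupp : ∀ ξ ∉ A '' oct, 𝓕 (fun x => (F x : ℂ)) ξ = 0) :
    ∫ η, (𝓕 (fun x => (F x : ℂ)) (A η)).re ≤ 1 / 6 * ∫ x, F x := by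
  set φ : E 3 → ℝ := fun η => (𝓕 (fun x => (F x : ℂ)) (A η)).re with hφ
  have hcont : Continuous φ := by
    have h1 : Continuous (𝓕 (fun x => (F x : ℂ))) :=
      VectorFourier.fourierIntegral_continuous Real.continuous_fourierChar
        (by exact continuous_inner) hF.ofReal
    exact Complex.continuous_re.comp (h1.comp A.continuous)
  have hφ0 : ∀ η : E 3, 1 < |η 0| + |η 1| + |η 2| → φ η = 0 := by
    intro η hη
    have : A η ∉ A '' oct := by
      rintro ⟨ζ, hζ, he⟩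
      rw [A.injective he] at hζ
      exact absurd hζ (not_le.mpr hη)
    simp [hφ, hsupp _ this]
  have hφi : ∀ η, φ η = ∫ x, F x * Real.cos (2 * Real.pi * ⟪x, A η⟫) := fun η => fourier_re hF _
  -- the discrete inequality
  have key : ∀ n : ℕ, 0 < n → ∑ k ∈ Ioo (-(2 * n : ℤ)) (2 * n), ∑ l ∈ Ioo (-(2 * n : ℤ)) (2 * n),
      ∑ m ∈ Ioo (-(2 * n : ℤ)) (2 * n), φ (((2 * n - 1 : ℝ)⁻¹) • !₂[(k : ℝ), l, m]) ≤
      (4 * n ^ 3 + 2 * n) / 3 * ∫ x, F x := by
    intro n hn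
    set M : ℝ := 2 * n - 1 with hM
    have hMpos : 0 < M := by
      have : (1 : ℝ) ≤ n := by exact_mod_cast hn
      rw [hM]; linarith
    set y : Fin 3 → E 3 → ℝ := fun i x => 2 * Real.pi * M⁻¹ * ⟪x, A (EuclideanSpace.single i 1)⟫ with hy
    have hyc : ∀ i, Continuous (y i) := fun i => by rw [hy]; fun_prop
    have hcomb : ∀ (κ : E 3) (x : E 3), ∑ i, κ i * y i x = 2 * Real.pi * ⟪x, A (M⁻¹ • κ)⟫ := by
      intro κ x
      have hκ : κ = ∑ i, κ i • (EuclideanSpace.single i (1 : ℝ) : E 3) := by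
        ext j
        simp [Fin.sum_univ_three]
        fin_cases j <;> simp
      conv_rhs => rw [hκ]
      rw [map_smul, map_sum, inner_smul_right, inner_sum, Finset.mul_sum, Finset.mul_sum]
      refine Finset.sum_congr rfl fun i _ => ?_
      rw [map_smul, inner_smul_right, hy]
      ring
    have hsup : Supp n (cf F y) := by
      refine cf_supp hF hyc fun κ hκ => ?_
      have h1 := hφi (M⁻¹ • WithLp.toLp 2 κ)
      rw [hφ0] at h1
      · simp only [← hcomb] at h1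
        exact h1.symm
      · rw [Fin.sum_univ_three] at hκ
        simp only [PiLp.smul_apply, smul_eq_mul, abs_mul, abs_of_pos (inv_pos.mpr hMpos)]
        rw [← mul_add, ← mul_add, lt_inv_mul_iff₀ hMpos]
        linarith
    have hd := discrete hn hsup (cf_swap12 F y) (cf_swap23 F y)
      (fun s t r => PP_nonneg volume hF h0 (fun i => (hyc i).measurable) (fun _ _ _ => rfl) hsup s t r)
    rw [sum_cf hF hyc] at hd
    have h1 : cf F y 0 0 0 = ∫ x, F x := by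
      unfold cf
      refine integral_congr_ae (ae_of_all _ fun x => ?_)
      simp [Finset.card_univ, Fintype.card_perm, Nat.factorial]
    rw [h1] at hd
    refine le_trans (le_of_eq ?_) hd
    refine Finset.sum_congr rfl fun k _ => Finset.sum_congr rfl fun l _ =>
      Finset.sum_congr rfl fun m _ => ?_
    rw [hφi]
    refine integral_congr_ae (ae_of_all _ fun x => ?_)
    simp only
    rw [← hcomb, Fin.sum_univ_three]
    simp
  -- the limit
  have hlim := riemann hcont hφ0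
  have hlim2 : Tendsto (fun n : ℕ => ((4 * n ^ 3 + 2 * n) / 3 * ∫ x, F x) / (2 * n - 1 : ℝ) ^ 3) atTop
      (𝓝 (1 / 6 * ∫ x, F x)) := by
    have h1 : Tendsto (fun n : ℕ => (n : ℝ)⁻¹) atTop (𝓝 0) := tendsto_inv_atTop_nhds_zero_nat
    have h2 : Tendsto (fun n : ℕ => ((4 + 2 * (n : ℝ)⁻¹ ^ 2) / 3 * ∫ x, F x) / (2 - (n : ℝ)⁻¹) ^ 3) atTop
        (𝓝 (((4 + 2 * (0 : ℝ) ^ 2) / 3 * ∫ x, F x) / (2 - 0) ^ 3)) := by
      refine Tendsto.div ?_ ((tendsto_const_nhds.sub h1).pow 3) (by norm_num)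
      exact ((tendsto_const_nhds.add ((h1.pow 2).const_mul 2)).div_const 3).mul_const _
    have h3 : ((4 + 2 * (0 : ℝ) ^ 2) / 3 * ∫ x, F x) / (2 - 0) ^ 3 = 1 / 6 * ∫ x, F x := by ring
    rw [h3] at h2
    refine h2.congr' ?_
    filter_upwards [eventually_gt_atTop 0] with n hn
    have hn' : (0 : ℝ) < n := by exact_mod_cast hn
    have hn1 : (1 : ℝ) ≤ n := by exact_mod_cast hn
    have h4 : (2 * (n : ℝ) - 1) ≠ 0 := by linarith
    have h5 : (2 - (n : ℝ)⁻¹) = (2 * n - 1) / n := by field_simp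
    rw [h5]
    field_simp
  refine le_of_tendsto_of_tendsto hlim hlim2 ?_
  filter_upwards [eventually_gt_atTop 0] with n hn
  have hn1 : (1 : ℝ) ≤ n := by exact_mod_cast hn
  have : (0 : ℝ) < (2 * n - 1) ^ 3 := by
    have : (0 : ℝ) < 2 * n - 1 := by linarith
    positivity
  exact div_le_div_of_nonneg_right (key n hn) this.le

end Pool.Agent.MPbd65ca.Oct
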