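import Mathlib
import Pool.Agent.Lib.MP_bd65ca_an.Defs

/-!
# The octahedron is a Turán domain: definitions

Discrete version: for a nonnegative trigonometric polynomial `P` in three variables with
frequencies `k`, `|k 0| + |k 1| + |k 2| ≤ 2 n - 1`, one has
`P 0 ≤ (4 n ^ 3 + 2 n) / 3 * (mean value of P)`.
-/

open Finset MeasureTheory

namespace Pool.Agent.MPbd65ca.Oct

/-- The nodes `π (2 l + 1) / m`. -/
noncomputable def nd (m l : ℕ) : ℝ := Real.pi * (2 * l + 1) / m

/-- The weight function. -/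
noncomputable def wt (n : ℕ) (v : ℝ) : ℝ := (n * Real.sin v) ^ 2 / (1 + (n * Real.sin v) ^ 2)

/-- Real trigonometric polynomials of degree at most `M`. -/
def TP (M : ℕ) (f : ℝ → ℝ) : Prop :=
  ∃ p : Polynomial ℂ, p.natDegree ≤ 2 * M ∧
    ∀ u : ℝ, (f u : ℂ) * Complex.exp (Complex.I * (M * u)) = p.eval (Complex.exp (Complex.I * u))

/-- The value at `u` of the trigonometric polynomial with coefficients `x 0, ..., x (m - 1)`. -/
noncomputable def H (m : ℕ) (x : ℕ → ℂ) (u : ℝ) : ℂ :=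
  ∑ k ∈ range m, x k * Complex.exp (Complex.I * (k * u))

/-- Cosine polynomials in three variables. -/
noncomputable def PP (n : ℕ) (a : ℤ → ℤ → ℤ → ℝ) (x y z : ℝ) : ℝ :=
  ∑ k ∈ Ioo (-(2 * n : ℤ)) (2 * n), ∑ l ∈ Ioo (-(2 * n : ℤ)) (2 * n),
    ∑ m ∈ Ioo (-(2 * n : ℤ)) (2 * n),
      a k l m * (Real.cos (k * x) * Real.cos (l * y) * Real.cos (m * z))

end Pool.Agent.MPbd65ca.Oct
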