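import Pool.Agent.Lib.MP_bd65ca_an.Oct.Defs

/-!
# Fejér–Riesz theorem for strictly positive trigonometric polynomials
-/

open Finset MeasureTheory

namespace Pool.Agent.MPbd65ca.Oct

namespace FRaux

open Polynomial

/-- The reciprocal conjugate polynomial. -/
noncomputable def star (N : ℕ) (p : ℂ[X]) : ℂ[X] := reflect N (p.map (starRingEnd ℂ))

lemma eval_star {N : ℕ} {p : ℂ[X]} (hp : p.natDegree ≤ N) {z : ℂ} (hz : z ≠ 0) :
    (star N p).eval z = z ^ N * (starRingEnd ℂ) (p.eval ((starRingEnd ℂ) z)⁻¹) := by
  have hz' : z⁻¹ ≠ 0 := inv_ne_zero hz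
  let _ : Invertible (z⁻¹) := invertibleOfNonzero hz'
  have hdeg : (p.map (starRingEnd ℂ)).natDegree ≤ N := le_trans natDegree_map_le hp
  have h := eval₂_reflect_mul_pow (RingHom.id ℂ) (z⁻¹) N (p.map (starRingEnd ℂ)) hdeg
  rw [invOf_eq_inv, inv_inv, eval₂_id, eval₂_id, eval_map] at h
  have h2 : eval₂ (starRingEnd ℂ) z⁻¹ p = (starRingEnd ℂ) (p.eval ((starRingEnd ℂ) z)⁻¹) := by
    rw [← map_inv₀, ← eval₂_at_apply]
    simp
  rw [h2] at h
  rw [← h, inv_pow]
  unfold star
  have hzN : z ^ N ≠ 0 := pow_ne_zero _ hz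
  field_simp

lemma circle_infinite : (Set.range (fun u : ℝ => Complex.exp (Complex.I * u))).Infinite := by
  have hinj : Set.InjOn (fun u : ℝ => Complex.exp (Complex.I * u)) (Set.Ioc (0 : ℝ) 1) := by
    intro u hu v hv h
    have h2 := Complex.exp_inj_of_neg_pi_lt_of_le_pi (x := Complex.I * u) (y := Complex.I * v)
      (by simp; linarith [hu.1, Real.pi_pos]) (by simp; linarith [hu.2, Real.pi_gt_three])
      (by simp; linarith [hv.1, Real.pi_pos]) (by simp; linarith [hv.2, Real.pi_gt_three]) h
    have h3 := mul_left_cancel₀ Complex.I_ne_zero h2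
    exact_mod_cast h3
  have h1 : (Set.Ioc (0 : ℝ) 1).Infinite := Set.Ioc_infinite one_pos
  exact (h1.image hinj).mono (Set.image_subset_range _ _)

lemma norm_e (u : ℝ) : ‖Complex.exp (Complex.I * u)‖ = 1 := by
  rw [mul_comm]
  exact Complex.norm_exp_ofReal_mul_I u

lemma conj_e (u : ℝ) : (starRingEnd ℂ) (Complex.exp (Complex.I * u)) =
    (Complex.exp (Complex.I * u))⁻¹ := by
  rw [← Complex.exp_conj, ← Complex.exp_neg]
  simp

lemma self_star {M : ℕ} {f : ℝ → ℝ} {p : ℂ[X]} (hp : p.natDegree ≤ 2 * M)
    (h : ∀ u : ℝ, (f u : ℂ) * Complex.exp (Complex.I * (M * u)) =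
      p.eval (Complex.exp (Complex.I * u))) :
    star (2 * M) p = p := by
  apply eq_of_infinite_eval_eq
  apply circle_infinite.mono
  rintro z ⟨u, rfl⟩
  have hz : Complex.exp (Complex.I * u) ≠ 0 := Complex.exp_ne_zero _
  have he : Complex.exp (Complex.I * (M * u)) = Complex.exp (Complex.I * u) ^ M := by
    rw [← Complex.exp_nat_mul]
    congr 1
    ring
  change (star (2 * M) p).eval (Complex.exp (Complex.I * u)) = p.eval (Complex.exp (Complex.I * u))
  rw [eval_star hp hz, conj_e, inv_inv, ← h u, he, map_mul, map_pow, conj_e, Complex.conj_ofReal,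
    inv_pow]
  have : Complex.exp (Complex.I * u) ^ (2 * M) =
    Complex.exp (Complex.I * u) ^ M * Complex.exp (Complex.I * u) ^ M := by ring
  rw [this]
  have hzM : Complex.exp (Complex.I * u) ^ M ≠ 0 := pow_ne_zero _ hz
  field_simp

lemma coeff_symm {M : ℕ} {f : ℝ → ℝ} {p : ℂ[X]} (hp : p.natDegree ≤ 2 * M)
    (h : ∀ u : ℝ, (f u : ℂ) * Complex.exp (Complex.I * (M * u)) =
      p.eval (Complex.exp (Complex.I * u))) :
    p.coeff (2 * M) = (starRingEnd ℂ) (p.coeff 0) := by
  have h1 := self_star hp h
  conv_lhs => rw [← h1]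
  unfold star
  rw [coeff_reflect, coeff_map, revAt_le le_rfl]
  simp

theorem main (M : ℕ) : ∀ f : ℝ → ℝ, TP M f → (∀ u, 0 < f u) →
    ∃ q : ℂ[X], q.natDegree ≤ M ∧ ∀ u : ℝ, f u = ‖q.eval (Complex.exp (Complex.I * u))‖ ^ 2 := by
  induction M with
  | zero =>
    rintro f ⟨p, hp, h⟩ hpos
    have hp0 : p.natDegree = 0 := by omega
    have hc := eq_C_of_natDegree_eq_zero hp0
    have hf : ∀ u, (f u : ℂ) = p.coeff 0 := by
      intro u
      have := h u
      rw [hc] at this
      simpa using this
    refine ⟨C ((Real.sqrt (f 0) : ℝ) : ℂ), by simp, fun u => ?_⟩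
    have h0 : f u = f 0 := by
      have := (hf u).trans (hf 0).symm
      exact_mod_cast this
    rw [eval_C, Complex.norm_real, Real.norm_eq_abs, sq_abs, Real.sq_sqrt (hpos 0).le, h0]
  | succ M ih =>
    rintro f ⟨p, hp, h⟩ hpos
    have hsym := coeff_symm hp h
    have he : ∀ u : ℝ, Complex.exp (Complex.I * ((M + 1 : ℕ) * u)) =
        Complex.exp (Complex.I * u) ^ (M + 1) := by
      intro u
      rw [← Complex.exp_nat_mul]
      congr 1
      ring
    have he' : ∀ u : ℝ, Complex.exp (Complex.I * (M * u)) =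
        Complex.exp (Complex.I * u) ^ M := by
      intro u
      rw [← Complex.exp_nat_mul]
      congr 1
      ring
    by_cases h0 : p.coeff 0 = 0
    · -- divide by X
      have hX : X ∣ p := X_dvd_iff.2 h0
      obtain ⟨q, hq⟩ := hX
      have hlast : p.coeff (2 * (M + 1)) = 0 := by rw [hsym, h0, map_zero]
      have hqd : q.natDegree ≤ 2 * M := by
        rw [natDegree_le_iff_coeff_eq_zero]
        intro N hN
        have h1 : p.coeff (N + 1) = q.coeff N := by rw [hq, coeff_X_mul]
        rw [← h1]
        rcases Nat.lt_or_ge (2 * (M + 1)) (N + 1) with h2 | h2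
        · exact coeff_eq_zero_of_natDegree_lt (lt_of_le_of_lt hp h2)
        · have : N + 1 = 2 * (M + 1) := by omega
          rw [this]
          exact hlast
      have hTP : TP M f := by
        refine ⟨q, hqd, fun u => ?_⟩
        have h1 := h u
        rw [hq, eval_mul, eval_X, he u, pow_succ] at h1
        have hz : Complex.exp (Complex.I * u) ≠ 0 := Complex.exp_ne_zero _
        rw [he' u]
        apply mul_left_cancel₀ hz
        rw [← h1]
        ring
      obtain ⟨q', hq', hf'⟩ := ih f hTP hpos
      exact ⟨q', by omega, hf'⟩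
    · have hlast : p.coeff (2 * (M + 1)) ≠ 0 := by
        rw [hsym]
        simpa using h0
      have hnat : p.natDegree = 2 * (M + 1) := le_antisymm hp (le_natDegree_of_ne_zero hlast)
      have hdeg : 0 < p.degree := by
        rw [← natDegree_pos_iff_degree_pos]
        omega
      obtain ⟨α, hα⟩ := Complex.exists_root hdeg
      have hα0 : α ≠ 0 := by
        rintro rfl
        apply h0
        rw [coeff_zero_eq_eval_zero]
        exact hα
      have hα1 : ‖α‖ ≠ 1 := by
        intro h1
        have h2 : α = Complex.exp (Complex.I * (Complex.arg α : ℝ)) := by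
          have := Complex.norm_mul_exp_arg_mul_I α
          rw [h1] at this
          simp only [Complex.ofReal_one, one_mul] at this
          rw [mul_comm]
          exact this.symm
        have h3 := h (Complex.arg α)
        rw [← h2] at h3
        rw [hα.eq_zero] at h3
        have h4 : (f (Complex.arg α) : ℂ) ≠ 0 := by exact_mod_cast (hpos _).ne'
        exact (mul_ne_zero h4 (Complex.exp_ne_zero _)) h3
      set β : ℂ := ((starRingEnd ℂ) α)⁻¹ with hβ
      have hca : (starRingEnd ℂ) α ≠ 0 := by simpa using hα0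
      have hβ0 : β ≠ 0 := inv_ne_zero hca
      have hcb : ((starRingEnd ℂ) β)⁻¹ = α := by
        rw [hβ, map_inv₀, inv_inv, Complex.conj_conj]
      have hβroot : p.eval β = 0 := by
        have h1 := self_star hp h
        rw [← h1, eval_star hp hβ0, hcb, hα.eq_zero, map_zero, mul_zero]
      have hne : β ≠ α := by
        intro h1
        apply hα1
        have h2 : ‖β‖ = ‖α‖⁻¹ := by
          rw [hβ, norm_inv, RCLike.norm_conj]
        rw [h1] at h2
        have h3 : 0 < ‖α‖ := norm_pos_iff.2 hα0
        have h4 : ‖α‖ * ‖α‖ = 1 := by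
          nth_rewrite 2 [h2]
          exact mul_inv_cancel₀ h3.ne'
        nlinarith
      obtain ⟨p1, hp1⟩ := dvd_iff_isRoot.2 hα
      have hp1β : p1.IsRoot β := by
        have h1 := hβroot
        rw [hp1, eval_mul] at h1
        rcases mul_eq_zero.1 h1 with h2 | h2
        · exfalso
          apply hne
          have : β - α = 0 := by simpa using h2
          exact sub_eq_zero.1 this
        · exact h2
      obtain ⟨q, hq⟩ := dvd_iff_isRoot.2 hp1β
      have hp_ne : p ≠ 0 := by
        rintro rfl
        simp at hlast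
      have hp1_ne : p1 ≠ 0 := by
        rintro rfl
        apply hp_ne
        rw [hp1, mul_zero]
      have hq_ne : q ≠ 0 := by
        rintro rfl
        apply hp1_ne
        rw [hq, mul_zero]
      have hqd : q.natDegree = 2 * M := by
        have h1 : p.natDegree = 1 + p1.natDegree := by
          rw [hp1, natDegree_mul (X_sub_C_ne_zero α) hp1_ne, natDegree_X_sub_C]
        have h2 : p1.natDegree = 1 + q.natDegree := by
          rw [hq, natDegree_mul (X_sub_C_ne_zero β) hq_ne, natDegree_X_sub_C]
        omega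
      have hza : ∀ u : ℝ, Complex.exp (Complex.I * u) - α ≠ 0 := by
        intro u h1
        apply hα1
        rw [← sub_eq_zero.1 h1]
        exact norm_e u
      have hzapos : ∀ u : ℝ, 0 < ‖Complex.exp (Complex.I * u) - α‖ ^ 2 := by
        intro u
        have := norm_pos_iff.2 (hza u)
        positivity
      have hTP : TP M (fun u => f u / ‖Complex.exp (Complex.I * u) - α‖ ^ 2) := by
        refine ⟨C (-β) * q, ?_, fun u => ?_⟩
        · exact le_trans (natDegree_C_mul_le _ _) hqd.le
        · have h1 := h u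
          rw [hp1, hq, eval_mul, eval_mul, eval_sub, eval_sub, eval_X, eval_C, eval_C, he u] at h1
          have hz : Complex.exp (Complex.I * u) ≠ 0 := Complex.exp_ne_zero _
          have h2 : ((‖Complex.exp (Complex.I * u) - α‖ ^ 2 : ℝ) : ℂ) =
              (Complex.exp (Complex.I * u) - α) *
                ((Complex.exp (Complex.I * u))⁻¹ - (starRingEnd ℂ) α) := by
            rw [← conj_e, ← map_sub, Complex.mul_conj, Complex.normSq_eq_norm_sq]
          have h3 : (Complex.exp (Complex.I * u) - β) =
              -β * Complex.exp (Complex.I * u) *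
                ((Complex.exp (Complex.I * u))⁻¹ - (starRingEnd ℂ) α) := by
            rw [hβ]
            field_simp
            ring
          have h4 : ((‖Complex.exp (Complex.I * u) - α‖ ^ 2 : ℝ) : ℂ) ≠ 0 := by
            exact_mod_cast (hzapos u).ne'
          rw [eval_mul, eval_C, Complex.ofReal_div, he' u, div_mul_eq_mul_div, div_eq_iff h4, h2]
          apply mul_left_cancel₀ hz
          rw [h3] at h1
          linear_combination h1
      obtain ⟨q', hq', hf'⟩ := ih _ hTP (fun u => div_pos (hpos u) (hzapos u))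
      refine ⟨(X - C α) * q', ?_, fun u => ?_⟩
      · refine le_trans natDegree_mul_le ?_
        rw [natDegree_X_sub_C]
        omega
      · have h1 := hf' u
        rw [div_eq_iff (hzapos u).ne'] at h1
        rw [h1, eval_mul, eval_sub, eval_X, eval_C, norm_mul]
        ring

end FRaux

theorem fejer_riesz {M : ℕ} {f : ℝ → ℝ} (hf : TP M f) (hpos : ∀ u, 0 < f u) :
    ∃ x : ℕ → ℂ, ∀ u : ℝ, f u = ‖H (M + 1) x u‖ ^ 2 := by
  obtain ⟨q, hq, h⟩ := FRaux.main M f hf hpos
  refine ⟨fun k => q.coeff k, fun u => ?_⟩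
  rw [h u, Polynomial.eval_eq_sum_range' (Nat.lt_succ_of_le hq)]
  unfold H
  congr 2
  apply Finset.sum_congr rfl
  intro k _
  rw [← Complex.exp_nat_mul]
  congr 2
  ring

end Pool.Agent.MPbd65ca.Oct
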