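import Mathlib
import Pool.Agent.Lib.MP_bd65ca_an.Oct.Defs

/-!
# Positivity of the cosine series of a positive measure with finitely many coefficients
-/

open Finset MeasureTheory

namespace Pool.Agent.MPbd65ca.Oct

namespace Pos

lemma card_fiber (L : ℕ) (k : ℤ) :
    ((range L ×ˢ range L).filter (fun p : ℕ × ℕ => ((p.1 : ℤ) - p.2 = k))).card
      = L - k.natAbs := by
  rw [← Finset.card_range (L - k.natAbs)]
  apply Finset.card_nbij' (i := fun p : ℕ × ℕ => min p.1 p.2)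
    (j := fun j => (j + k.toNat, j + (-k).toNat))
  · rintro ⟨a, b⟩ h
    simp at h ⊢
    omega
  · intro j h
    simp at h ⊢
    omega
  · rintro ⟨a, b⟩ h
    simp at h ⊢
    omega
  · intro j h
    simp at h ⊢
    omega

/-- The weights `L - |k|`. -/
noncomputable def cw (L : ℕ) (k : ℤ) : ℝ := ((L - k.natAbs : ℕ) : ℝ)

lemma fejer_sum (L : ℕ) (f : ℤ → ℝ) :
    ∑ k ∈ Ioo (-(L : ℤ)) L, cw L k * f k = ∑ i ∈ range L, ∑ j ∈ range L, f ((i : ℤ) - j) := by
  rw [← Finset.sum_product']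
  rw [← Finset.sum_fiberwise_of_maps_to (s := range L ×ˢ range L) (t := Ioo (-(L : ℤ)) L)
    (g := fun p : ℕ × ℕ => (p.1 : ℤ) - p.2)]
  · refine Finset.sum_congr rfl fun k _ => ?_
    rw [Finset.sum_congr rfl (g := fun _ => f k)]
    · rw [Finset.sum_const, card_fiber, nsmul_eq_mul, cw]
    · intro p hp
      rw [(Finset.mem_filter.mp hp).2]
  · rintro ⟨a, b⟩ h
    simp at h ⊢
    omega

lemma fejer_nonneg (L : ℕ) (t : ℝ) : 0 ≤ ∑ k ∈ Ioo (-(L : ℤ)) L, cw L k * Real.cos (k * t) := by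
  rw [fejer_sum L (fun k => Real.cos (k * t))]
  have : ∑ i ∈ range L, ∑ j ∈ range L, Real.cos (((i : ℤ) - j : ℤ) * t) =
      (∑ i ∈ range L, Real.cos (i * t)) ^ 2 + (∑ i ∈ range L, Real.sin (i * t)) ^ 2 := by
    rw [pow_two, pow_two, Finset.sum_mul_sum, Finset.sum_mul_sum, ← Finset.sum_add_distrib]
    refine Finset.sum_congr rfl fun i _ => ?_
    rw [← Finset.sum_add_distrib]
    refine Finset.sum_congr rfl fun j _ => ?_
    rw [← Real.cos_sub]
    congr 1
    push_cast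
    ring
  rw [this]
  positivity

/-- The product kernel. -/
noncomputable def G (L : ℕ) (y s : ℝ) : ℝ :=
  ∑ k ∈ Ioo (-(L : ℤ)) L, cw L k * Real.cos (k * s) * Real.cos (k * y)

lemma G_nonneg (L : ℕ) (y s : ℝ) : 0 ≤ G L y s := by
  have h1 := fejer_nonneg L (s + y)
  have h2 := fejer_nonneg L (s - y)
  have : G L y s = 1 / 2 * (∑ k ∈ Ioo (-(L : ℤ)) L, cw L k * Real.cos (k * (s + y))
      + ∑ k ∈ Ioo (-(L : ℤ)) L, cw L k * Real.cos (k * (s - y))) := by
    unfold G
    rw [← Finset.sum_add_distrib, Finset.mul_sum]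
    refine Finset.sum_congr rfl fun k _ => ?_
    rw [mul_add (k : ℝ) s y, mul_sub (k : ℝ) s y, Real.cos_add, Real.cos_sub]
    ring
  rw [this]
  positivity

lemma sum3 {ι : Type*} (I : Finset ι) (A B C : ι → ℝ) :
    ∑ k ∈ I, ∑ l ∈ I, ∑ m ∈ I, A k * B l * C m = (∑ k ∈ I, A k) * (∑ l ∈ I, B l) * (∑ m ∈ I, C m) := by
  rw [Finset.sum_mul_sum, Finset.sum_mul]
  refine Finset.sum_congr rfl fun k _ => ?_
  rw [Finset.sum_mul_sum]

lemma sum_swap3 {ι κ : Type*} [Fintype κ] (I : Finset ι) (f : ι → ι → ι → κ → ℝ) :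
    ∑ k ∈ I, ∑ l ∈ I, ∑ m ∈ I, ∑ σ, f k l m σ = ∑ σ, ∑ k ∈ I, ∑ l ∈ I, ∑ m ∈ I, f k l m σ := by
  rw [Finset.sum_comm (s := univ) (t := I)]
  refine Finset.sum_congr rfl fun k _ => ?_
  rw [Finset.sum_comm (s := univ) (t := I)]
  refine Finset.sum_congr rfl fun l _ => ?_
  rw [Finset.sum_comm (s := univ) (t := I)]

lemma key {Ω : Type*} [MeasurableSpace Ω] (μ : Measure Ω) {F : Ω → ℝ}
    (hF : Integrable F μ) (h0 : ∀ ω, 0 ≤ F ω) {y : Fin 3 → Ω → ℝ} (hy : ∀ i, Measurable (y i))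
    {a : ℤ → ℤ → ℤ → ℝ}
    (ha : ∀ k l m : ℤ, a k l m = ∫ ω, F ω * (1 / 6 * ∑ σ : Equiv.Perm (Fin 3),
      Real.cos (k * y (σ 0) ω) * Real.cos (l * y (σ 1) ω) * Real.cos (m * y (σ 2) ω)) ∂μ)
    (s t r : ℝ) (L : ℕ) :
    0 ≤ ∑ k ∈ Ioo (-(L : ℤ)) L, ∑ l ∈ Ioo (-(L : ℤ)) L, ∑ m ∈ Ioo (-(L : ℤ)) L,
      (cw L k * cw L l * cw L m *
        (Real.cos (k * s) * Real.cos (l * t) * Real.cos (m * r))) * a k l m := by
  have hint : ∀ k l m : ℤ, Integrable (fun ω => F ω * (1 / 6 * ∑ σ : Equiv.Perm (Fin 3),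
      Real.cos (k * y (σ 0) ω) * Real.cos (l * y (σ 1) ω) * Real.cos (m * y (σ 2) ω))) μ := by
    intro k l m
    refine hF.mul_bdd (c := 1 / 6 * ∑ σ : Equiv.Perm (Fin 3), 1) ?_ ?_
    · refine Measurable.aestronglyMeasurable ?_
      refine Measurable.const_mul ?_ _
      refine Finset.measurable_sum _ fun σ _ => ?_
      exact (((Real.measurable_cos.comp ((hy _).const_mul _)).mul
        (Real.measurable_cos.comp ((hy _).const_mul _))).mul
        (Real.measurable_cos.comp ((hy _).const_mul _)))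
    · refine Filter.Eventually.of_forall fun ω => ?_
      rw [norm_mul]
      refine mul_le_mul (by norm_num) ?_ (norm_nonneg _) (by norm_num)
      refine (norm_sum_le _ _).trans (Finset.sum_le_sum fun σ _ => ?_)
      rw [norm_mul, norm_mul]
      have h1 := Real.abs_cos_le_one (k * y (σ 0) ω)
      have h2 := Real.abs_cos_le_one (l * y (σ 1) ω)
      have h3 := Real.abs_cos_le_one (m * y (σ 2) ω)
      rw [Real.norm_eq_abs, Real.norm_eq_abs, Real.norm_eq_abs]
      exact mul_le_one₀ (mul_le_one₀ h1 (abs_nonneg _) h2) (abs_nonneg _) h3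
  have e : ∑ k ∈ Ioo (-(L : ℤ)) L, ∑ l ∈ Ioo (-(L : ℤ)) L, ∑ m ∈ Ioo (-(L : ℤ)) L,
      (cw L k * cw L l * cw L m *
        (Real.cos (k * s) * Real.cos (l * t) * Real.cos (m * r))) * a k l m =
      ∫ ω, F ω * (1 / 6 * ∑ σ : Equiv.Perm (Fin 3), G L (y (σ 0) ω) s * G L (y (σ 1) ω) t *
        G L (y (σ 2) ω) r) ∂μ := by
    have e1 : ∀ ω, F ω * (1 / 6 * ∑ σ : Equiv.Perm (Fin 3), G L (y (σ 0) ω) s * G L (y (σ 1) ω) t *
        G L (y (σ 2) ω) r) = ∑ k ∈ Ioo (-(L : ℤ)) L, ∑ l ∈ Ioo (-(L : ℤ)) L, ∑ m ∈ Ioo (-(L : ℤ)) L,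
        (cw L k * cw L l * cw L m *
        (Real.cos (k * s) * Real.cos (l * t) * Real.cos (m * r))) *
          (F ω * (1 / 6 * ∑ σ : Equiv.Perm (Fin 3),
      Real.cos (k * y (σ 0) ω) * Real.cos (l * y (σ 1) ω) * Real.cos (m * y (σ 2) ω))) := by
      intro ω
      simp only [Finset.mul_sum]
      rw [sum_swap3]
      refine Finset.sum_congr rfl fun σ _ => ?_
      unfold G
      rw [← sum3]
      simp only [Finset.mul_sum]
      refine Finset.sum_congr rfl fun k _ => Finset.sum_congr rfl fun l _ =>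
        Finset.sum_congr rfl fun m _ => ?_
      ring
    simp_rw [e1]
    rw [integral_finsetSum]
    · refine Finset.sum_congr rfl fun k _ => ?_
      rw [integral_finsetSum]
      · refine Finset.sum_congr rfl fun l _ => ?_
        rw [integral_finsetSum]
        · refine Finset.sum_congr rfl fun m _ => ?_
          rw [integral_const_mul, ha]
        · intro m _
          exact (hint k l m).const_mul _
      · intro l _
        exact integrable_finsetSum _ fun m _ => (hint k l m).const_mul _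
    · intro k _
      exact integrable_finsetSum _ fun l _ => integrable_finsetSum _ fun m _ =>
        (hint k l m).const_mul _
  rw [e]
  refine integral_nonneg fun ω => ?_
  refine mul_nonneg (h0 ω) (mul_nonneg (by norm_num) (Finset.sum_nonneg fun σ _ => ?_))
  exact mul_nonneg (mul_nonneg (G_nonneg _ _ _) (G_nonneg _ _ _)) (G_nonneg _ _ _)

lemma cw_lim (k : ℤ) : Filter.Tendsto (fun L : ℕ => cw L k / L) Filter.atTop (nhds 1) := by
  have h1 : Filter.Tendsto (fun L : ℕ => 1 - (k.natAbs : ℝ) / L) Filter.atTop (nhds (1 - 0)) :=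
    tendsto_const_nhds.sub (tendsto_const_div_atTop_nhds_zero_nat _)
  rw [sub_zero] at h1
  refine h1.congr' ?_
  filter_upwards [Filter.eventually_ge_atTop (k.natAbs + 1)] with L hL
  have hL0 : (L : ℝ) ≠ 0 := by
    have : 0 < L := by omega
    positivity
  rw [cw, Nat.cast_sub (by omega)]
  field_simp

end Pos

open Pos

theorem PP_nonneg {Ω : Type*} [MeasurableSpace Ω] (μ : Measure Ω) {F : Ω → ℝ}
    (hF : Integrable F μ) (h0 : ∀ ω, 0 ≤ F ω) {y : Fin 3 → Ω → ℝ} (hy : ∀ i, Measurable (y i))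
    {n : ℕ} {a : ℤ → ℤ → ℤ → ℝ}
    (ha : ∀ k l m : ℤ, a k l m = ∫ ω, F ω * (1 / 6 * ∑ σ : Equiv.Perm (Fin 3),
      Real.cos (k * y (σ 0) ω) * Real.cos (l * y (σ 1) ω) * Real.cos (m * y (σ 2) ω)) ∂μ)
    (hsupp : ∀ k l m, 2 * (n : ℤ) ≤ |k| + |l| + |m| → a k l m = 0) (s t r : ℝ) :
    0 ≤ PP n a s t r := by
  have hlim : Filter.Tendsto (fun L : ℕ => ∑ k ∈ Ioo (-(2 * n : ℤ)) (2 * n),
      ∑ l ∈ Ioo (-(2 * n : ℤ)) (2 * n), ∑ m ∈ Ioo (-(2 * n : ℤ)) (2 * n),
      (cw L k / L) * (cw L l / L) * (cw L m / L) *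
        (a k l m * (Real.cos (k * s) * Real.cos (l * t) * Real.cos (m * r))))
      Filter.atTop (nhds (PP n a s t r)) := by
    unfold PP
    refine tendsto_finsetSum _ fun k _ => tendsto_finsetSum _ fun l _ =>
      tendsto_finsetSum _ fun m _ => ?_
    have := (((cw_lim k).mul (cw_lim l)).mul (cw_lim m)).mul_const
      (a k l m * (Real.cos (k * s) * Real.cos (l * t) * Real.cos (m * r)))
    simpa using this
  refine ge_of_tendsto hlim ?_
  filter_upwards [Filter.eventually_ge_atTop (2 * n)] with L hL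
  have hk := key μ hF h0 hy ha s t r L
  have hsub : Ioo (-(2 * n : ℤ)) (2 * n) ⊆ Ioo (-(L : ℤ)) L := by
    intro k hk
    simp only [Finset.mem_Ioo] at hk ⊢
    omega
  have e : ∑ k ∈ Ioo (-(L : ℤ)) L, ∑ l ∈ Ioo (-(L : ℤ)) L, ∑ m ∈ Ioo (-(L : ℤ)) L,
      (cw L k * cw L l * cw L m *
        (Real.cos (k * s) * Real.cos (l * t) * Real.cos (m * r))) * a k l m =
      ∑ k ∈ Ioo (-(2 * n : ℤ)) (2 * n), ∑ l ∈ Ioo (-(2 * n : ℤ)) (2 * n),
      ∑ m ∈ Ioo (-(2 * n : ℤ)) (2 * n), (cw L k * cw L l * cw L m *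
        (Real.cos (k * s) * Real.cos (l * t) * Real.cos (m * r))) * a k l m := by
    have hout : ∀ k : ℤ, k ∉ Ioo (-(2 * n : ℤ)) (2 * n) → 2 * (n : ℤ) ≤ |k| := by
      intro k hk
      simp only [Finset.mem_Ioo, not_and_or, not_lt] at hk
      rcases hk with hk | hk
      · rw [le_abs]
        right
        omega
      · exact hk.trans (le_abs_self k)
    symm
    rw [Finset.sum_subset hsub]
    · refine Finset.sum_congr rfl fun k _ => ?_
      rw [Finset.sum_subset hsub]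
      · refine Finset.sum_congr rfl fun l _ => ?_
        rw [Finset.sum_subset hsub]
        intro m _ hm
        rw [hsupp k l m, mul_zero]
        have := hout m hm
        have := abs_nonneg k
        have := abs_nonneg l
        linarith
      · intro l _ hl
        refine Finset.sum_eq_zero fun m _ => ?_
        rw [hsupp k l m, mul_zero]
        have := hout l hl
        have := abs_nonneg k
        have := abs_nonneg m
        linarith
    · intro k _ hk
      refine Finset.sum_eq_zero fun l _ => Finset.sum_eq_zero fun m _ => ?_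
      rw [hsupp k l m, mul_zero]
      have := hout k hk
      have := abs_nonneg l
      have := abs_nonneg m
      linarith
  rw [e] at hk
  have e2 : ∑ k ∈ Ioo (-(2 * n : ℤ)) (2 * n),
      ∑ l ∈ Ioo (-(2 * n : ℤ)) (2 * n), ∑ m ∈ Ioo (-(2 * n : ℤ)) (2 * n),
      (cw L k / L) * (cw L l / L) * (cw L m / L) *
        (a k l m * (Real.cos (k * s) * Real.cos (l * t) * Real.cos (m * r))) =
      (1 / (L : ℝ) ^ 3) * ∑ k ∈ Ioo (-(2 * n : ℤ)) (2 * n), ∑ l ∈ Ioo (-(2 * n : ℤ)) (2 * n),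
      ∑ m ∈ Ioo (-(2 * n : ℤ)) (2 * n), (cw L k * cw L l * cw L m *
        (Real.cos (k * s) * Real.cos (l * t) * Real.cos (m * r))) * a k l m := by
    simp only [Finset.mul_sum]
    refine Finset.sum_congr rfl fun k _ => Finset.sum_congr rfl fun l _ =>
      Finset.sum_congr rfl fun m _ => ?_
    ring
  rw [e2]
  exact mul_nonneg (by positivity) hk

end Pool.Agent.MPbd65ca.Oct
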