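import Mathlib
import Pool.Agent.Lib.MP_bd65ca_an.Oct.Defs

/-!
# Riemann sums in `R^3` and the volume of the octahedron
-/

open Finset MeasureTheory

namespace Pool.Agent.MPbd65ca.Oct

namespace Riem

open scoped Pointwise

/-- The lattice point `v / N`. -/
noncomputable def emb (N : ℝ) (v : Fin 3 → ℤ) : Fin 3 → ℝ := fun i => N⁻¹ * (v i : ℝ)

lemma emb_inj {N : ℝ} (hN : N ≠ 0) : Function.Injective (emb N) := by
  intro v w h
  funext i
  have := congrFun h i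
  simp only [emb] at this
  have h2 := mul_left_cancel₀ (inv_ne_zero hN) this
  exact_mod_cast h2

lemma range_emb {N : ℕ} (hN : N ≠ 0) : Set.range (emb (N : ℝ)) =
    (N : ℝ)⁻¹ • ((Submodule.span ℤ (Set.range (Pi.basisFun ℝ (Fin 3))) :
      Submodule ℤ (Fin 3 → ℝ)) : Set (Fin 3 → ℝ)) := by
  have : NeZero N := ⟨hN⟩
  ext v
  rw [← Submodule.coe_pointwise_smul, SetLike.mem_coe,
    BoxIntegral.unitPartition.mem_smul_span_iff]
  constructor
  · rintro ⟨w, rfl⟩ i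
    refine ⟨w i, ?_⟩
    simp only [emb, eq_intCast]
    rw [mul_inv_cancel_left₀ (Nat.cast_ne_zero.mpr hN)]
  · intro h
    choose w hw using h
    refine ⟨w, ?_⟩
    funext i
    simp only [emb]
    have := hw i
    simp only [eq_intCast] at this
    rw [this, inv_mul_cancel_left₀ (Nat.cast_ne_zero.mpr hN)]

lemma toLp_emb (N : ℝ) (k l m : ℤ) :
    WithLp.toLp 2 (emb N ![k, l, m]) = N⁻¹ • !₂[(k : ℝ), (l : ℝ), (m : ℝ)] := by
  ext i
  fin_cases i <;> simp [emb]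

/-- The finite set of the indices. -/
noncomputable def Bx (n : ℕ) : Finset (Fin 3 → ℤ) :=
  ((Ioo (-(2 * n : ℤ)) (2 * n)) ×ˢ (Ioo (-(2 * n : ℤ)) (2 * n)) ×ˢ
    (Ioo (-(2 * n : ℤ)) (2 * n))).image (fun p => ![p.1, p.2.1, p.2.2])

lemma sum_Bx (n : ℕ) (G : (Fin 3 → ℤ) → ℝ) :
    ∑ v ∈ Bx n, G v = ∑ k ∈ Ioo (-(2 * n : ℤ)) (2 * n), ∑ l ∈ Ioo (-(2 * n : ℤ)) (2 * n),
      ∑ m ∈ Ioo (-(2 * n : ℤ)) (2 * n), G ![k, l, m] := by
  unfold Bx
  rw [Finset.sum_image]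
  · rw [Finset.sum_product]
    refine Finset.sum_congr rfl fun k _ => ?_
    rw [Finset.sum_product]
  · rintro ⟨a, b, c⟩ _ ⟨a', b', c'⟩ _ h
    have h0 := congrFun h 0
    have h1 := congrFun h 1
    have h2 := congrFun h 2
    simp at h0 h1 h2
    simp [h0, h1, h2]

lemma mem_Bx (n : ℕ) (v : Fin 3 → ℤ) : v ∈ Bx n ↔ ∀ i, |v i| < 2 * n := by
  unfold Bx
  simp only [Finset.mem_image, Finset.mem_product, Finset.mem_Ioo, Prod.exists]
  constructor
  · rintro ⟨a, b, c, ⟨ha, hb, hc⟩, rfl⟩ i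
    rw [abs_lt]
    fin_cases i <;> simp <;> omega
  · intro h
    refine ⟨v 0, v 1, v 2, ⟨?_, ?_, ?_⟩, ?_⟩
    · exact abs_lt.mp (h 0)
    · exact abs_lt.mp (h 1)
    · exact abs_lt.mp (h 2)
    · funext i
      fin_cases i <;> rfl

end Riem

open Riem

open scoped Pointwise in
theorem riemann {f : E 3 → ℝ} (hf : Continuous f)
    (hsupp : ∀ ξ : E 3, 1 < |ξ 0| + |ξ 1| + |ξ 2| → f ξ = 0) :
    Filter.Tendsto (fun n : ℕ => (∑ k ∈ Ioo (-(2 * n : ℤ)) (2 * n), ∑ l ∈ Ioo (-(2 * n : ℤ)) (2 * n),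
      ∑ m ∈ Ioo (-(2 * n : ℤ)) (2 * n),
        f (((2 * n - 1 : ℝ)⁻¹) • !₂[(k : ℝ), l, m])) / (2 * n - 1 : ℝ) ^ 3)
      Filter.atTop (nhds (∫ ξ, f ξ)) := by
  set F : (Fin 3 → ℝ) → ℝ := fun x => f (WithLp.toLp 2 x) with hF
  have hFc : Continuous F := hf.comp (PiLp.continuous_toLp 2 _)
  set s : Set (Fin 3 → ℝ) := Metric.closedBall 0 1 with hs
  have hF0 : ∀ x : Fin 3 → ℝ, x ∉ s → F x = 0 := by
    intro x hx
    apply hsupp
    rw [hs, mem_closedBall_zero_iff, pi_norm_le_iff_of_nonneg zero_le_one] at hx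
    push Not at hx
    obtain ⟨i, hi⟩ := hx
    rw [Real.norm_eq_abs] at hi
    have a0 := abs_nonneg (x 0)
    have a1 := abs_nonneg (x 1)
    have a2 := abs_nonneg (x 2)
    fin_cases i <;> simp only [Fin.zero_eta, Fin.mk_one, Fin.reduceFinMk] at hi <;>
      simp only [] <;> linarith
  have hint : ∫ x in s, F x = ∫ ξ, f ξ := by
    rw [setIntegral_eq_integral_of_forall_compl_eq_zero hF0]
    exact (PiLp.volume_preserving_toLp (Fin 3)).integral_comp
      (MeasurableEquiv.toLp 2 (Fin 3 → ℝ)).measurableEmbedding f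
  have hT := tendsto_tsum_div_pow_atTop_integral s F hFc Metric.isBounded_closedBall
    Metric.isClosed_closedBall.measurableSet ((convex_closedBall (0 : Fin 3 → ℝ) 1).addHaar_frontier volume)
  rw [hint] at hT
  have hφ : Filter.Tendsto (fun n : ℕ => 2 * n - 1) Filter.atTop Filter.atTop := by
    refine Filter.tendsto_atTop_mono (f := fun n : ℕ => n - 1) (fun n => by omega) ?_
    exact Filter.tendsto_sub_atTop_nat 1
  have hT2 := hT.comp hφ
  refine hT2.congr' ?_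
  filter_upwards [Filter.eventually_ge_atTop 1] with n hn
  have hN : (2 * n - 1 : ℕ) ≠ 0 := by omega
  have hcast : ((2 * n - 1 : ℕ) : ℝ) = 2 * (n : ℝ) - 1 := by
    rw [Nat.cast_sub (by omega)]
    push_cast
    ring
  simp only [Function.comp_apply, Fintype.card_fin]
  rw [← hcast]
  congr 1
  have e1 : (∑' x : ↥(s ∩ ((2 * n - 1 : ℕ) : ℝ)⁻¹ •
      ((Submodule.span ℤ (Set.range (Pi.basisFun ℝ (Fin 3))) :
      Submodule ℤ (Fin 3 → ℝ)) : Set (Fin 3 → ℝ))), F x) =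
      ∑' v : Fin 3 → ℤ, F (emb ((2 * n - 1 : ℕ) : ℝ) v) := by
    rw [← tsum_range F (emb_inj (Nat.cast_ne_zero.mpr hN)), range_emb hN, _root_.tsum_subtype,
      _root_.tsum_subtype]
    refine tsum_congr fun x => ?_
    by_cases hx : x ∈ s
    · by_cases hx2 : x ∈ ((2 * n - 1 : ℕ) : ℝ)⁻¹ •
        ((Submodule.span ℤ (Set.range (Pi.basisFun ℝ (Fin 3))) :
        Submodule ℤ (Fin 3 → ℝ)) : Set (Fin 3 → ℝ))
      · rw [Set.indicator_of_mem (Set.mem_inter hx hx2), Set.indicator_of_mem hx2]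
      · rw [Set.indicator_of_notMem (fun h => hx2 h.2), Set.indicator_of_notMem hx2]
    · rw [Set.indicator_of_notMem (fun h => hx h.1)]
      by_cases hx2 : x ∈ ((2 * n - 1 : ℕ) : ℝ)⁻¹ •
        ((Submodule.span ℤ (Set.range (Pi.basisFun ℝ (Fin 3))) :
        Submodule ℤ (Fin 3 → ℝ)) : Set (Fin 3 → ℝ))
      · rw [Set.indicator_of_mem hx2, hF0 x hx]
      · rw [Set.indicator_of_notMem hx2]
  refine e1.trans ?_
  rw [tsum_eq_sum (s := Bx n), sum_Bx]
  · refine Finset.sum_congr rfl fun k _ => Finset.sum_congr rfl fun l _ =>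
      Finset.sum_congr rfl fun m _ => ?_
    rw [hF]
    simp only []
    rw [toLp_emb]
  · intro v hv
    rw [mem_Bx] at hv
    push Not at hv
    obtain ⟨i, hi⟩ := hv
    apply hF0
    rw [hs, mem_closedBall_zero_iff, pi_norm_le_iff_of_nonneg zero_le_one]
    push Not
    refine ⟨i, ?_⟩
    rw [emb, Real.norm_eq_abs, abs_mul, abs_inv, Nat.abs_cast, hcast]
    have h2 : (2 * n : ℝ) ≤ |(v i : ℝ)| := by exact_mod_cast hi
    have h3 : (0 : ℝ) < 2 * n - 1 := by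
      have : (1 : ℝ) ≤ n := by exact_mod_cast hn
      linarith
    rw [lt_inv_mul_iff₀ h3]
    linarith

theorem volume_oct : (volume {ξ : E 3 | |ξ 0| + |ξ 1| + |ξ 2| ≤ 1}).toReal = 4 / 3 := by
  have h1 := MeasureTheory.volume_sum_rpow_le (Fin 3) (p := 1) le_rfl 1
  have h2 : {ξ : E 3 | |ξ 0| + |ξ 1| + |ξ 2| ≤ 1} = (MeasurableEquiv.toLp 2 (Fin 3 → ℝ)).symm ⁻¹'
      {x : Fin 3 → ℝ | (∑ i, |x i| ^ (1:ℝ)) ^ (1 / (1:ℝ)) ≤ 1} := by
    ext ξ
    simp [Fin.sum_univ_three]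
  rw [h2, (EuclideanSpace.volume_preserving_symm_measurableEquiv_toLp (Fin 3)).measure_preimage_equiv, h1]
  have h3 : Real.Gamma (3 + 1 : ℝ) = 6 := by
    have := Real.Gamma_nat_eq_factorial 3
    norm_num [Nat.factorial] at this ⊢
  have h4 : Real.Gamma (1 + 1 : ℝ) = 1 := by
    have := Real.Gamma_nat_eq_factorial 1
    norm_num [Nat.factorial] at this ⊢
  simp only [Fintype.card_fin, Nat.cast_ofNat, div_one, h3, h4, ENNReal.ofReal_one, one_pow, one_mul]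
  rw [ENNReal.toReal_ofReal (by norm_num)]
  norm_num

end Pool.Agent.MPbd65ca.Oct
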