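import Pool.Agent.Lib.MP_bd65ca_an.Oct.Defs

/-!
# MP_bd65ca_an, module TRIG: cosine polynomials on lines, sampling on a lattice
-/

open Finset MeasureTheory

namespace Pool.Agent.MPbd65ca.Oct

theorem TP.add {M : ℕ} {f g : ℝ → ℝ} (hf : TP M f) (hg : TP M g) :
    TP M (fun u => f u + g u) := by
  obtain ⟨p, hp, hpu⟩ := hf
  obtain ⟨q, hq, hqu⟩ := hg
  refine ⟨p + q, Polynomial.natDegree_add_le_of_degree_le hp hq, fun u => ?_⟩
  rw [Polynomial.eval_add, ← hpu, ← hqu]
  push_cast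
  ring

theorem TP.const (M : ℕ) (c : ℝ) : TP M (fun _ => c) := by
  refine ⟨Polynomial.C (c : ℂ) * Polynomial.X ^ M, ?_, fun u => ?_⟩
  · refine (Polynomial.natDegree_C_mul_X_pow_le _ _).trans (by omega)
  · rw [Polynomial.eval_mul, Polynomial.eval_C, Polynomial.eval_pow, Polynomial.eval_X,
      ← Complex.exp_nat_mul]
    congr 2
    ring

namespace TrigAux

theorem constMul {M : ℕ} {f : ℝ → ℝ} (c : ℝ) (hf : TP M f) : TP M (fun u => c * f u) := by
  obtain ⟨p, hp, hpu⟩ := hf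
  refine ⟨Polynomial.C (c : ℂ) * p, (Polynomial.natDegree_C_mul_le _ _).trans hp, fun u => ?_⟩
  rw [Polynomial.eval_mul, Polynomial.eval_C, ← hpu]
  push_cast
  ring

theorem sum {ι : Type*} (s : Finset ι) {M : ℕ} {f : ι → ℝ → ℝ} (hf : ∀ i ∈ s, TP M (f i)) :
    TP M (fun u => ∑ i ∈ s, f i u) := by
  classical
  induction s using Finset.induction_on with
  | empty => simpa using TP.const M 0
  | insert i s hi ih =>
    simp only [Finset.sum_insert hi]
    exact (hf i (mem_insert_self i s)).add (ih fun j hj => hf j (mem_insert_of_mem hj))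

theorem cos1 {M : ℕ} {k : ℤ} (hk : |k| ≤ M) (c : ℝ) :
    TP M (fun u => Real.cos (k * u + c)) := by
  have h1 : -(M : ℤ) ≤ k := (abs_le.1 hk).1
  have h2 : k ≤ M := (abs_le.1 hk).2
  obtain ⟨A, hA⟩ : ∃ A : ℕ, (A : ℤ) = M + k := ⟨(M + k).toNat, Int.toNat_of_nonneg (by omega)⟩
  obtain ⟨B, hB⟩ : ∃ B : ℕ, (B : ℤ) = M - k := ⟨(M - k).toNat, Int.toNat_of_nonneg (by omega)⟩
  refine ⟨Polynomial.C (Complex.exp (Complex.I * c) / 2) * Polynomial.X ^ A +
    Polynomial.C (Complex.exp (-(Complex.I * c)) / 2) * Polynomial.X ^ B, ?_, fun u => ?_⟩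
  · refine Polynomial.natDegree_add_le_of_degree_le ?_ ?_
    · exact (Polynomial.natDegree_C_mul_X_pow_le _ _).trans (by omega)
    · exact (Polynomial.natDegree_C_mul_X_pow_le _ _).trans (by omega)
  · have hAc : (A : ℂ) = M + k := by exact_mod_cast hA
    have hBc : (B : ℂ) = M - k := by exact_mod_cast hB
    rw [Polynomial.eval_add, Polynomial.eval_mul, Polynomial.eval_mul, Polynomial.eval_C,
      Polynomial.eval_C, Polynomial.eval_pow, Polynomial.eval_pow, Polynomial.eval_X,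
      ← Complex.exp_nat_mul, ← Complex.exp_nat_mul, hAc, hBc]
    push_cast
    rw [Complex.cos, div_mul_eq_mul_div, div_mul_eq_mul_div, div_mul_eq_mul_div, ← add_div,
      add_mul, ← Complex.exp_add, ← Complex.exp_add, ← Complex.exp_add, ← Complex.exp_add]
    congr 3
    · ring
    · ring

theorem cos3 {M : ℕ} {k l m : ℤ} (h : |k| + |l| + |m| ≤ M) (a b c : ℝ) :
    TP M (fun u => Real.cos (k * u + a) * Real.cos (l * u + b) * Real.cos (m * u + c)) := by
  have hk := abs_le.1 (le_refl |k|)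
  have hl := abs_le.1 (le_refl |l|)
  have hm := abs_le.1 (le_refl |m|)
  have e : (fun u : ℝ => Real.cos (k * u + a) * Real.cos (l * u + b) * Real.cos (m * u + c)) =
      fun u => 1 / 4 * ((Real.cos (((k + l + m : ℤ) : ℝ) * u + (a + b + c)) +
        Real.cos (((k + l - m : ℤ) : ℝ) * u + (a + b - c))) +
        (Real.cos (((k - l + m : ℤ) : ℝ) * u + (a - b + c)) +
        Real.cos (((k - l - m : ℤ) : ℝ) * u + (a - b - c)))) := by
    funext u
    have e1 : ((k + l + m : ℤ) : ℝ) * u + (a + b + c) =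
        ((k * u + a) + (l * u + b)) + (m * u + c) := by push_cast; ring
    have e2 : ((k + l - m : ℤ) : ℝ) * u + (a + b - c) =
        ((k * u + a) + (l * u + b)) - (m * u + c) := by push_cast; ring
    have e3 : ((k - l + m : ℤ) : ℝ) * u + (a - b + c) =
        ((k * u + a) - (l * u + b)) + (m * u + c) := by push_cast; ring
    have e4 : ((k - l - m : ℤ) : ℝ) * u + (a - b - c) =
        ((k * u + a) - (l * u + b)) - (m * u + c) := by push_cast; ring
    rw [e1, e2, e3, e4]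
    simp only [Real.cos_add, Real.cos_sub, Real.sin_add, Real.sin_sub]
    ring
  rw [e]
  refine constMul _ (((cos1 ?_ _).add (cos1 ?_ _)).add ((cos1 ?_ _).add (cos1 ?_ _)))
  all_goals
    rw [abs_le]
    constructor <;> omega

theorem cosTerm {n : ℕ} (hn : 0 < n) {a : ℤ → ℤ → ℤ → ℝ}
    (ha : ∀ k l m, 2 * (n : ℤ) ≤ |k| + |l| + |m| → a k l m = 0) (k l m : ℤ) (x y z : ℝ) :
    TP (2 * n - 1) (fun u => a k l m * (Real.cos (k * u + x) * Real.cos (l * u + y) *
      Real.cos (m * u + z))) := by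
  by_cases h : 2 * (n : ℤ) ≤ |k| + |l| + |m|
  · simp only [ha k l m h, zero_mul]
    exact TP.const _ 0
  · refine constMul _ (cos3 ?_ x y z)
    push Not at h
    omega

theorem csum_dvd {n : ℕ} (hn : 0 < n) {K : ℤ} (h : (2 * n : ℤ) ∣ K) :
    ∑ i ∈ range (2 * n), Real.cos (K * (Real.pi * i / n)) = 2 * n := by
  obtain ⟨q, rfl⟩ := h
  have hn' : (n : ℝ) ≠ 0 := by exact_mod_cast hn.ne'
  have e : ∀ i ∈ range (2 * n), Real.cos (((2 * n * q : ℤ) : ℝ) * (Real.pi * i / n)) = 1 := by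
    intro i _
    have : ((2 * n * q : ℤ) : ℝ) * (Real.pi * i / n) = ((q * i : ℤ) : ℝ) * (2 * Real.pi) := by
      push_cast
      field_simp
    rw [this]
    exact Real.cos_int_mul_two_pi _
  rw [Finset.sum_congr rfl e]
  simp

theorem csum_ne {n : ℕ} (hn : 0 < n) {K : ℤ} (h : ¬ (2 * n : ℤ) ∣ K) :
    ∑ i ∈ range (2 * n), Real.cos (K * (Real.pi * i / n)) = 0 := by
  have hn' : (n : ℂ) ≠ 0 := by exact_mod_cast hn.ne'
  have hpi : (Real.pi : ℂ) ≠ 0 := by exact_mod_cast Real.pi_ne_zero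
  set ζ : ℂ := Complex.exp (K * Real.pi / n * Complex.I) with hζ
  have h1 : ζ ≠ 1 := by
    intro hc
    rw [hζ, Complex.exp_eq_one_iff] at hc
    obtain ⟨q, hq⟩ := hc
    apply h
    refine ⟨q, ?_⟩
    have h2 : (K : ℂ) = 2 * n * q := by
      have h3 : (K : ℂ) * Real.pi / n * Complex.I * (n / (Real.pi * Complex.I)) =
        q * (2 * Real.pi * Complex.I) * (n / (Real.pi * Complex.I)) := by rw [hq]
      have hI := Complex.I_ne_zero
      field_simp at h3
      rw [h3]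
      ring
    exact_mod_cast h2
  have h2 : ζ ^ (2 * n) = 1 := by
    rw [hζ, ← Complex.exp_nat_mul]
    have : ((2 * n : ℕ) : ℂ) * (K * Real.pi / n * Complex.I) = K * (2 * Real.pi * Complex.I) := by
      push_cast
      field_simp
    rw [this]
    exact Complex.exp_int_mul_two_pi_mul_I K
  have h3 : ∑ i ∈ range (2 * n), ζ ^ i = 0 := by
    have h4 := mul_geom_sum ζ (2 * n)
    rw [h2, sub_self] at h4
    exact (mul_eq_zero.1 h4).resolve_left (sub_ne_zero.2 h1)
  have h4 : ∀ i ∈ range (2 * n), Real.cos (K * (Real.pi * i / n)) = (ζ ^ i).re := by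
    intro i _
    rw [hζ, ← Complex.exp_nat_mul]
    have : (i : ℂ) * (K * Real.pi / n * Complex.I) =
        ((K * (Real.pi * i / n) : ℝ) : ℂ) * Complex.I := by
      push_cast
      ring
    rw [this, Complex.exp_ofReal_mul_I_re]
  rw [Finset.sum_congr rfl h4, ← Complex.re_sum, h3, Complex.zero_re]

theorem dsum {n : ℕ} (hn : 0 < n) (K : ℤ) :
    ∑ i ∈ range (2 * n), (-1 : ℝ) ^ i * Real.cos (K * (Real.pi * i / n)) =
      ((∑ i ∈ range (2 * n), Real.cos (((K + n : ℤ) : ℝ) * (Real.pi * i / n))) +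
        ∑ i ∈ range (2 * n), Real.cos (((K - n : ℤ) : ℝ) * (Real.pi * i / n))) / 2 := by
  have hn' : (n : ℝ) ≠ 0 := by exact_mod_cast hn.ne'
  rw [← Finset.sum_add_distrib, Finset.sum_div]
  refine Finset.sum_congr rfl fun i _ => ?_
  have e1 : ((K + n : ℤ) : ℝ) * (Real.pi * i / n) = K * (Real.pi * i / n) + i * Real.pi := by
    push_cast
    field_simp
  have e2 : ((K - n : ℤ) : ℝ) * (Real.pi * i / n) = K * (Real.pi * i / n) - i * Real.pi := by
    push_cast
    field_simp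
  rw [e1, e2, Real.cos_add, Real.cos_sub, Real.cos_nat_mul_pi, Real.sin_nat_mul_pi]
  ring

end TrigAux

open TrigAux

theorem TP_PP_line {n : ℕ} (hn : 0 < n) {a : ℤ → ℤ → ℤ → ℝ}
    (ha : ∀ k l m, 2 * (n : ℤ) ≤ |k| + |l| + |m| → a k l m = 0) (v : ℝ) :
    TP (2 * n - 1) (fun u => PP n a (u + v) (u + v) (u - v)) := by
  unfold PP
  refine TrigAux.sum _ fun k _ => TrigAux.sum _ fun l _ => TrigAux.sum _ fun m _ => ?_
  have h := cosTerm hn ha k l m (k * v) (l * v) (-(m * v))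
  have e : (fun u : ℝ => a k l m * (Real.cos (k * (u + v)) * Real.cos (l * (u + v)) *
      Real.cos (m * (u - v)))) = fun u => a k l m * (Real.cos (k * u + k * v) *
      Real.cos (l * u + l * v) * Real.cos (m * u + -(m * v))) := by
    funext u
    rw [mul_add, mul_add, mul_sub, ← sub_eq_add_neg]
  rw [e]
  exact h

theorem TP_PP_diag {n : ℕ} (hn : 0 < n) {a : ℤ → ℤ → ℤ → ℝ}
    (ha : ∀ k l m, 2 * (n : ℤ) ≤ |k| + |l| + |m| → a k l m = 0) :
    TP (2 * n - 1) (fun u => PP n a u u u) := by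
  have h := TP_PP_line hn ha 0
  simpa using h

theorem PP_sampling {n : ℕ} (hn : 0 < n) {a : ℤ → ℤ → ℤ → ℝ}
    (ha : ∀ k l m, 2 * (n : ℤ) ≤ |k| + |l| + |m| → a k l m = 0) :
    ∑ i ∈ range (2 * n), ∑ j ∈ range (2 * n), ∑ k ∈ range (2 * n),
      (if i % 2 = j % 2 ∧ j % 2 = k % 2 then 0 else
        PP n a (Real.pi * i / n) (Real.pi * j / n) (Real.pi * k / n)) = 6 * n ^ 3 * a 0 0 0 := by
  have hw : ∀ i j k : ℕ, ∀ x : ℝ, (if i % 2 = j % 2 ∧ j % 2 = k % 2 then 0 else x) =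
      (3 / 4 - ((-1 : ℝ) ^ i * (-1) ^ j + (-1) ^ j * (-1) ^ k + (-1) ^ i * (-1) ^ k) / 4) * x := by
    intro i j k x
    have hs : ∀ i : ℕ, (i % 2 = 0 ∧ (-1 : ℝ) ^ i = 1) ∨ (i % 2 = 1 ∧ (-1 : ℝ) ^ i = -1) := by
      intro i
      rcases Nat.even_or_odd i with h | h
      · exact Or.inl ⟨Nat.even_iff.1 h, h.neg_one_pow⟩
      · exact Or.inr ⟨Nat.odd_iff.1 h, h.neg_one_pow⟩
    rcases hs i with ⟨h1, h1'⟩ | ⟨h1, h1'⟩ <;> rcases hs j with ⟨h2, h2'⟩ | ⟨h2, h2'⟩ <;>
      rcases hs k with ⟨h3, h3'⟩ | ⟨h3, h3'⟩ <;> rw [h1, h2, h3, h1', h2', h3'] <;> norm_num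
  simp only [hw]
  have hT : ∀ f : ℕ → ℕ → ℕ → ℝ, ∑ i ∈ range (2 * n), ∑ j ∈ range (2 * n), ∑ k ∈ range (2 * n),
      f i j k = ∑ t ∈ range (2 * n) ×ˢ range (2 * n) ×ˢ range (2 * n), f t.1 t.2.1 t.2.2 := by
    intro f
    simp only [Finset.sum_product]
  have hZ : ∀ f : ℤ → ℤ → ℤ → ℝ, ∑ k ∈ Ioo (-(2 * n : ℤ)) (2 * n),
      ∑ l ∈ Ioo (-(2 * n : ℤ)) (2 * n), ∑ m ∈ Ioo (-(2 * n : ℤ)) (2 * n), f k l m =
      ∑ t ∈ Ioo (-(2 * n : ℤ)) (2 * n) ×ˢ Ioo (-(2 * n : ℤ)) (2 * n) ×ˢ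
        Ioo (-(2 * n : ℤ)) (2 * n), f t.1 t.2.1 t.2.2 := by
    intro f
    simp only [Finset.sum_product]
  unfold PP
  rw [hT]
  simp only [hZ, Finset.mul_sum]
  rw [Finset.sum_comm]
  -- the inner sum over the lattice points
  have key : ∀ z ∈ Ioo (-(2 * n : ℤ)) (2 * n) ×ˢ Ioo (-(2 * n : ℤ)) (2 * n) ×ˢ
        Ioo (-(2 * n : ℤ)) (2 * n),
      ∑ t ∈ range (2 * n) ×ˢ range (2 * n) ×ˢ range (2 * n),
        (3 / 4 - ((-1 : ℝ) ^ t.1 * (-1) ^ t.2.1 + (-1) ^ t.2.1 * (-1) ^ t.2.2 +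
          (-1) ^ t.1 * (-1) ^ t.2.2) / 4) *
        (a z.1 z.2.1 z.2.2 * (Real.cos (z.1 * (Real.pi * t.1 / n)) *
          Real.cos (z.2.1 * (Real.pi * t.2.1 / n)) * Real.cos (z.2.2 * (Real.pi * t.2.2 / n)))) =
      if z = (0, 0, 0) then 6 * n ^ 3 * a 0 0 0 else 0 := by
    rintro ⟨K, L, M⟩ hz
    simp only [mem_product, mem_Ioo] at hz
    obtain ⟨⟨hK1, hK2⟩, ⟨hL1, hL2⟩, hM1, hM2⟩ := hz
    simp only
    by_cases hbig : 2 * (n : ℤ) ≤ |K| + |L| + |M|
    · rw [ha K L M hbig]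
      simp only [zero_mul, mul_zero, Finset.sum_const_zero]
      rw [if_neg]
      intro hc
      simp only [Prod.mk.injEq] at hc
      rw [hc.1, hc.2.1, hc.2.2] at hbig
      simp at hbig
      omega
    · push Not at hbig
      set C : ℤ → ℝ := fun K => ∑ i ∈ range (2 * n), Real.cos (K * (Real.pi * i / n)) with hC
      set D : ℤ → ℝ := fun K => ∑ i ∈ range (2 * n), (-1 : ℝ) ^ i *
        Real.cos (K * (Real.pi * i / n)) with hD
      have hsum : ∑ t ∈ range (2 * n) ×ˢ range (2 * n) ×ˢ range (2 * n),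
          (3 / 4 - ((-1 : ℝ) ^ t.1 * (-1) ^ t.2.1 + (-1) ^ t.2.1 * (-1) ^ t.2.2 +
            (-1) ^ t.1 * (-1) ^ t.2.2) / 4) *
          (a K L M * (Real.cos (K * (Real.pi * t.1 / n)) *
            Real.cos (L * (Real.pi * t.2.1 / n)) * Real.cos (M * (Real.pi * t.2.2 / n)))) =
          a K L M * (3 / 4 * (C K * (C L * C M)) - (D K * (D L * C M)) / 4 -
            (C K * (D L * D M)) / 4 - (D K * (C L * D M)) / 4) := by
        have hprod : ∀ f g h : ℕ → ℝ, (∑ i ∈ range (2 * n), f i) *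
            ((∑ i ∈ range (2 * n), g i) * (∑ i ∈ range (2 * n), h i)) =
            ∑ t ∈ range (2 * n) ×ˢ range (2 * n) ×ˢ range (2 * n),
              f t.1 * (g t.2.1 * h t.2.2) := by
          intro f g h
          rw [Finset.sum_mul_sum (range (2 * n)) (range (2 * n)) g h, ← Finset.sum_product',
            Finset.sum_mul_sum, ← Finset.sum_product']
        simp only [hC, hD]
        rw [hprod, hprod, hprod, hprod, Finset.mul_sum, Finset.sum_div, Finset.sum_div,
          Finset.sum_div, ← Finset.sum_sub_distrib, ← Finset.sum_sub_distrib,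
          ← Finset.sum_sub_distrib, Finset.mul_sum]
        refine Finset.sum_congr rfl fun t _ => ?_
        ring
      rw [hsum]
      have hC0 : ∀ K : ℤ, -(2 * n : ℤ) < K → K < 2 * n → K ≠ 0 → C K = 0 := by
        intro K h1 h2 h3
        apply csum_ne hn
        rintro ⟨q, rfl⟩
        rcases lt_trichotomy q 0 with hq | hq | hq
        · nlinarith
        · exact h3 (by rw [hq, mul_zero])
        · nlinarith
      have hD0 : ∀ K : ℤ, -(2 * n : ℤ) < K → K < 2 * n → |K| ≠ n → D K = 0 := by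
        intro K h1 h2 h3
        simp only [hD]
        rw [dsum hn, csum_ne hn, csum_ne hn]
        · simp
        · rintro ⟨q, hq⟩
          have hq' : K = n * (2 * q + 1) := by linarith
          have h4 : q = 0 ∨ q = -1 := by
            have hn1 : (0 : ℤ) < n := by exact_mod_cast hn
            have h5 : 2 * q + 1 < 2 := by nlinarith
            have h6 : -2 < 2 * q + 1 := by nlinarith
            omega
          rcases h4 with h4 | h4
          · apply h3; rw [hq', h4]; simp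
          · apply h3; rw [hq', h4]; simp
        · rintro ⟨q, hq⟩
          have hq' : K = n * (2 * q - 1) := by linarith
          have h4 : q = 0 ∨ q = 1 := by
            have hn1 : (0 : ℤ) < n := by exact_mod_cast hn
            have h5 : 2 * q - 1 < 2 := by nlinarith
            have h6 : -2 < 2 * q - 1 := by nlinarith
            omega
          rcases h4 with h4 | h4
          · apply h3; rw [hq', h4]; simp
          · apply h3; rw [hq', h4]; simp
      have hDD : ∀ K L : ℤ, -(2 * n : ℤ) < K → K < 2 * n → -(2 * n : ℤ) < L → L < 2 * n →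
          |K| + |L| < 2 * n → D K * D L = 0 := by
        intro K L h1 h2 h3 h4 h5
        by_cases h6 : |K| = n
        · rw [hD0 L h3 h4 (by omega), mul_zero]
        · rw [hD0 K h1 h2 h6, zero_mul]
      have hKn := abs_nonneg K
      have hLn := abs_nonneg L
      have hMn := abs_nonneg M
      have e1 : D K * (D L * C M) = 0 := by
        rw [← mul_assoc, hDD K L hK1 hK2 hL1 hL2 (by omega), zero_mul]
      have e2 : C K * (D L * D M) = 0 := by
        rw [hDD L M hL1 hL2 hM1 hM2 (by omega), mul_zero]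
      have e3 : D K * (C L * D M) = 0 := by
        rw [mul_left_comm, hDD K M hK1 hK2 hM1 hM2 (by omega), mul_zero]
      rw [e1, e2, e3]
      by_cases h0 : (K, L, M) = ((0, 0, 0) : ℤ × ℤ × ℤ)
      · rw [if_pos h0]
        simp only [Prod.mk.injEq] at h0
        rw [h0.1, h0.2.1, h0.2.2]
        have hC00 : C 0 = 2 * n := csum_dvd hn (dvd_zero _)
        rw [hC00]
        ring
      · rw [if_neg h0]
        simp only [Prod.mk.injEq, not_and_or] at h0
        rcases h0 with h0 | h0 | h0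
        · rw [hC0 K hK1 hK2 h0]; ring
        · rw [hC0 L hL1 hL2 h0]; ring
        · rw [hC0 M hM1 hM2 h0]; ring
  rw [Finset.sum_congr rfl key, Finset.sum_ite_eq', if_pos]
  simp only [mem_product, mem_Ioo]
  omega

end Pool.Agent.MPbd65ca.Oct
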