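import Pool.Agent.Lib.MP_bd65ca_an.Oct.Lin
import Pool.Agent.Lib.MP_bd65ca_an.Oct.FR
import Pool.Agent.Lib.MP_bd65ca_an.Oct.Trig
import Pool.Agent.Lib.MP_bd65ca_an.Oct.Comb
import Pool.Agent.Lib.MP_bd65ca_an.Oct.Pos
import Pool.Agent.Lib.MP_bd65ca_an.Oct.Riem

/-!
# The octahedron is a Turán domain: the discrete theorem
-/

open Finset MeasureTheory

namespace Pool.Agent.MPbd65ca.Oct

lemma H_sq_sum {n : ℕ} (hn : 0 < n) {f : ℝ → ℝ} (hf : TP (2 * n - 1) f) (h0 : ∀ u, 0 ≤ f u)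
    {ε : ℝ} (hε : 0 < ε) : ∃ x : ℕ → ℂ, ∀ u, f u + ε = ‖H (2 * n) x u‖ ^ 2 := by
  have h1 := fejer_riesz (hf.add (TP.const (2 * n - 1) ε)) (fun u => add_pos_of_nonneg_of_pos (h0 u) hε)
  have h2 : 2 * n - 1 + 1 = 2 * n := by omega
  rwa [h2] at h1

lemma wt_nonneg (n : ℕ) (v : ℝ) : 0 ≤ wt n v := by
  unfold wt; positivity

lemma wt_le_one (n : ℕ) (v : ℝ) : wt n v ≤ 1 := by
  unfold wt
  rw [div_le_one (by positivity)]
  linarith

theorem line_ineq {n : ℕ} (hn : 0 < n) {f : ℝ → ℝ} (hf : TP (2 * n - 1) f) (h0 : ∀ u, 0 ≤ f u)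
    {v : ℝ} (hv : Complex.exp (Complex.I * (2 * n * v)) = -1) :
    wt n v * (f 0 + f Real.pi) + 1 / 2 * (f (-v) + f (Real.pi - v))
      ≤ ∑ l ∈ range (2 * n), f (nd (2 * n) l) := by
  refine le_of_forall_pos_le_add fun δ hδ => ?_
  have hn' : (0 : ℝ) < n := by exact_mod_cast hn
  obtain ⟨x, hx⟩ := H_sq_sum hn hf h0 (ε := δ / (2 * n)) (by positivity)
  have h1 := pair_ineq hn x hv
  have h2 := parseval (m := 2 * n) (by omega) x
  simp only [← hx] at h1 h2
  rw [Finset.sum_add_distrib, Finset.sum_const, Finset.card_range, nsmul_eq_mul] at h2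
  push_cast at h1 h2
  have h3 : 2 * (n : ℝ) * (δ / (2 * n)) = δ := by field_simp
  have h4 : 0 ≤ wt n v * (δ / (2 * n) + δ / (2 * n)) := mul_nonneg (wt_nonneg _ _) (by positivity)
  have h5 : (0 : ℝ) ≤ δ / (2 * n) := by positivity
  have h6 : wt n v * (f 0 + δ / (2 * n) + (f Real.pi + δ / (2 * n))) =
    wt n v * (f 0 + f Real.pi) + wt n v * (δ / (2 * n) + δ / (2 * n)) := by ring
  linarith

theorem diag_ineq {n : ℕ} (hn : 0 < n) {f : ℝ → ℝ} (hf : TP (2 * n - 1) f) (h0 : ∀ u, 0 ≤ f u) :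
    f 0 ≤ (4 / 3 + 2 / (3 * (n : ℝ) ^ 2)) *
      ∑ l ∈ range (2 * n), wt n (nd (2 * n) l) * f (nd (2 * n) l) := by
  refine le_of_forall_pos_le_add fun δ hδ => ?_
  have hn' : (0 : ℝ) < n := by exact_mod_cast hn
  set C : ℝ := 4 / 3 + 2 / (3 * (n : ℝ) ^ 2) with hC
  have hCpos : 0 < C := by positivity
  set ε : ℝ := δ / (C * (2 * n)) with hε
  have hεp : 0 < ε := by positivity
  obtain ⟨x, hx⟩ := H_sq_sum hn hf h0 hεp
  have h1 := node_ineq hn x
  simp only [← hx] at h1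
  rw [← hC] at h1
  have h2 : ∑ l ∈ range (2 * n), wt n (nd (2 * n) l) * (f (nd (2 * n) l) + ε)
      ≤ ∑ l ∈ range (2 * n), wt n (nd (2 * n) l) * f (nd (2 * n) l) + (2 * n) * ε := by
    calc _ ≤ ∑ l ∈ range (2 * n), (wt n (nd (2 * n) l) * f (nd (2 * n) l) + ε) := by
          refine Finset.sum_le_sum fun l _ => ?_
          have := wt_le_one n (nd (2 * n) l)
          nlinarith
      _ = _ := by
          rw [Finset.sum_add_distrib, Finset.sum_const, Finset.card_range, nsmul_eq_mul]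
          push_cast; ring
  have h3 : C * ((2 * n) * ε) = δ := by rw [hε]; field_simp
  have h4 := mul_le_mul_of_nonneg_left h2 hCpos.le
  rw [mul_add, h3] at h4
  linarith

/-- The hypothesis on the coefficients. -/
def Supp (n : ℕ) (a : ℤ → ℤ → ℤ → ℝ) : Prop :=
  ∀ k l m, 2 * (n : ℤ) ≤ |k| + |l| + |m| → a k l m = 0

lemma exp_nd {n : ℕ} (hn : 0 < n) (j : ℕ) :
    Complex.exp (Complex.I * (2 * n * (nd (2 * n) j : ℝ))) = -1 := by
  have h : Complex.I * (2 * n * (nd (2 * n) j : ℝ)) = Real.pi * Complex.I + j * (2 * Real.pi * Complex.I) := by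
    unfold nd
    have : (n : ℂ) ≠ 0 := by exact_mod_cast hn.ne'
    push_cast
    field_simp
    ring
  rw [h, Complex.exp_add, Complex.exp_pi_mul_I, Complex.exp_nat_mul_two_pi_mul_I, mul_one]

section

variable {n : ℕ} {a : ℤ → ℤ → ℤ → ℝ}

lemma PP_even (x y z : ℝ) : PP n a (-x) y z = PP n a x y z := by
  simp [PP]

lemma PP_per (x y z : ℝ) : PP n a (x + 2 * Real.pi) y z = PP n a x y z := by
  unfold PP
  refine Finset.sum_congr rfl fun k _ => Finset.sum_congr rfl fun l _ =>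
    Finset.sum_congr rfl fun m _ => ?_
  have h : Real.cos (k * (x + 2 * Real.pi)) = Real.cos (k * x) := by
    rw [mul_add, show (k : ℝ) * (2 * Real.pi) = k * (2 * Real.pi) from rfl, Real.cos_add_int_mul_two_pi]
  rw [h]

lemma PP_swap12 (h : ∀ k l m, a k l m = a l k m) (x y z : ℝ) : PP n a x y z = PP n a y x z := by
  unfold PP
  rw [Finset.sum_comm]
  refine Finset.sum_congr rfl fun k _ => Finset.sum_congr rfl fun l _ =>
    Finset.sum_congr rfl fun m _ => ?_
  rw [h l k m]; ring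

lemma PP_swap23 (h : ∀ k l m, a k l m = a k m l) (x y z : ℝ) : PP n a x y z = PP n a x z y := by
  unfold PP
  refine Finset.sum_congr rfl fun k _ => ?_
  rw [Finset.sum_comm]
  refine Finset.sum_congr rfl fun l _ => Finset.sum_congr rfl fun m _ => ?_
  rw [h k m l]; ring

end

/-- The discrete theorem. -/
theorem discrete {n : ℕ} (hn : 0 < n) {a : ℤ → ℤ → ℤ → ℝ} (ha : Supp n a)
    (h12 : ∀ k l m, a k l m = a l k m) (h23 : ∀ k l m, a k l m = a k m l)
    (h0 : ∀ x y z, 0 ≤ PP n a x y z) :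
    PP n a 0 0 0 ≤ (4 * n ^ 3 + 2 * n) / 3 * a 0 0 0 := by
  have hn' : (0 : ℝ) < n := by exact_mod_cast hn
  have e1 := PP_even (n := n) (a := a)
  have p1 := PP_per (n := n) (a := a)
  have s12 := PP_swap12 (n := n) h12
  have s23 := PP_swap23 (n := n) h23
  have e3 : ∀ x y z, PP n a x y (-z) = PP n a x y z := fun x y z => by
    rw [s23, s12, e1, ← s12, ← s23]
  have p3 : ∀ x y z, PP n a x y (z + 2 * Real.pi) = PP n a x y z := fun x y z => by
    rw [s23, s12, p1, ← s12, ← s23]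
  have hc := comb hn h0 p1 e1 s12 s23
  rw [PP_sampling hn ha] at hc
  -- lines
  have hl : ∀ j ∈ range n, wt n (nd (2 * n) j) * (PP n a (nd (2 * n) j) (nd (2 * n) j) (nd (2 * n) j)
        + PP n a (nd (2 * n) j + Real.pi) (nd (2 * n) j + Real.pi) (nd (2 * n) j + Real.pi))
      + 1 / 2 * (PP n a 0 0 (2 * nd (2 * n) j) + PP n a Real.pi Real.pi (Real.pi - 2 * nd (2 * n) j))
      ≤ ∑ l ∈ range (2 * n), PP n a (nd (2 * n) l + nd (2 * n) j) (nd (2 * n) l + nd (2 * n) j)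
          (nd (2 * n) l - nd (2 * n) j) := by
    intro j _
    set v := nd (2 * n) j with hv
    have h := line_ineq hn (TP_PP_line hn ha v) (fun u => h0 _ _ _) (exp_nd hn j)
    have t1 : PP n a (0 + v) (0 + v) (0 - v) = PP n a v v v := by
      rw [zero_add, zero_sub, e3]
    have t2 : PP n a (Real.pi + v) (Real.pi + v) (Real.pi - v) =
        PP n a (v + Real.pi) (v + Real.pi) (v + Real.pi) := by
      rw [add_comm Real.pi v]
      calc PP n a (v + Real.pi) (v + Real.pi) (Real.pi - v)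
          = PP n a (v + Real.pi) (v + Real.pi) (-(Real.pi - v)) := (e3 _ _ _).symm
        _ = PP n a (v + Real.pi) (v + Real.pi) (-(Real.pi - v) + 2 * Real.pi) := (p3 _ _ _).symm
        _ = _ := by congr 1; ring
    have t3 : PP n a (-v + v) (-v + v) (-v - v) = PP n a 0 0 (2 * v) := by
      rw [neg_add_cancel, show -v - v = -(2 * v) by ring, e3]
    have t4 : PP n a (Real.pi - v + v) (Real.pi - v + v) (Real.pi - v - v) =
        PP n a Real.pi Real.pi (Real.pi - 2 * v) := by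
      rw [sub_add_cancel]; congr 1; ring
    rw [t1, t2, t3, t4] at h
    exact h
  have hsum := Finset.sum_le_sum hl
  -- the diagonal
  have hG : TP (2 * n - 1) (fun u => PP n a u u u) := TP_PP_diag hn ha
  have hd := diag_ineq hn hG (fun u => h0 _ _ _)
  have hper : ∀ x, PP n a (x + 2 * Real.pi) (x + 2 * Real.pi) (x + 2 * Real.pi) = PP n a x x x := by
    intro x
    rw [p1, s12, p1, s23, s12, p1]
  have hsplit : ∑ l ∈ range (2 * n), wt n (nd (2 * n) l) *
      PP n a (nd (2 * n) l) (nd (2 * n) l) (nd (2 * n) l) =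
      ∑ j ∈ range n, wt n (nd (2 * n) j) * (PP n a (nd (2 * n) j) (nd (2 * n) j) (nd (2 * n) j)
        + PP n a (nd (2 * n) j + Real.pi) (nd (2 * n) j + Real.pi) (nd (2 * n) j + Real.pi)) := by
    rw [two_mul, Finset.sum_range_add, ← Finset.sum_add_distrib]
    refine Finset.sum_congr rfl fun j _ => ?_
    have hnd : nd (n + n) (n + j) = nd (n + n) j + Real.pi := by
      unfold nd
      push_cast
      field_simp
      ring
    have hw : wt n (nd (n + n) (n + j)) = wt n (nd (n + n) j) := by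
      rw [hnd]; unfold wt; rw [Real.sin_add_pi]; ring
    rw [hw, hnd]; ring
  rw [hsplit] at hd
  set S1 := ∑ j ∈ range n, wt n (nd (2 * n) j) * (PP n a (nd (2 * n) j) (nd (2 * n) j) (nd (2 * n) j)
        + PP n a (nd (2 * n) j + Real.pi) (nd (2 * n) j + Real.pi) (nd (2 * n) j + Real.pi)) with hS1
  rw [Finset.sum_add_distrib, ← hS1, ← Finset.mul_sum] at hsum
  have hfin : S1 ≤ n ^ 3 * a 0 0 0 := by linarith
  have hC : (0 : ℝ) < 4 / 3 + 2 / (3 * (n : ℝ) ^ 2) := by positivity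
  calc PP n a 0 0 0 ≤ (4 / 3 + 2 / (3 * (n : ℝ) ^ 2)) * S1 := hd
    _ ≤ (4 / 3 + 2 / (3 * (n : ℝ) ^ 2)) * (n ^ 3 * a 0 0 0) := mul_le_mul_of_nonneg_left hfin hC.le
    _ = (4 * n ^ 3 + 2 * n) / 3 * a 0 0 0 := by field_simp

end Pool.Agent.MPbd65ca.Oct
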