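import Pool.Agent.Lib.MP_bd65ca_an.Oct.Main

/-!
# The octahedron is a Turán domain: octahedra as convex hulls
-/

open Finset MeasureTheory Filter
open scoped Topology

namespace Pool.Agent.MPbd65ca.Oct

/-- The octahedron with the vertices `v 0, v 1, v 2, -v 0, -v 1, -v 2`. -/
def octahedron (v : Fin 3 → E 3) : Set (E 3) :=
  convexHull ℝ (Set.range v ∪ Set.range fun i => -v i)

lemma comb_mem {v : Fin 3 → E 3} {c : Fin 3 → ℝ} (hc : ∑ i, |c i| ≤ 1) :
    ∑ i, c i • v i ∈ octahedron v := by
  have hconv : Convex ℝ (octahedron v) := convex_convexHull ℝ _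
  have hv : ∀ i, v i ∈ octahedron v := fun i => subset_convexHull ℝ _ (Or.inl ⟨i, rfl⟩)
  have hv' : ∀ i, -v i ∈ octahedron v := fun i => subset_convexHull ℝ _ (Or.inr ⟨i, rfl⟩)
  have h0 : (0 : E 3) ∈ octahedron v := by
    have := hconv (hv 0) (hv' 0) (by norm_num : (0 : ℝ) ≤ 1 / 2) (by norm_num : (0 : ℝ) ≤ 1 / 2)
      (by norm_num)
    simpa using this
  -- points `s_i v_i` with `s_i = sign c_i`
  have hs : ∀ i, ∃ w ∈ octahedron v, c i • v i = |c i| • w := by
    intro i
    rcases le_total 0 (c i) with h | h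
    · exact ⟨v i, hv i, by rw [abs_of_nonneg h]⟩
    · exact ⟨-v i, hv' i, by rw [abs_of_nonpos h, neg_smul_neg]⟩
  choose w hw hcw using hs
  have h1 : ∑ i, c i • v i = ∑ i, |c i| • w i + (1 - ∑ i, |c i|) • (0 : E 3) := by
    simp [hcw]
  rw [h1]
  have h2 := hconv.sum_mem (t := (Finset.univ : Finset (Option (Fin 3))))
    (w := fun o => o.elim (1 - ∑ i, |c i|) (fun i => |c i|))
    (z := fun o => o.elim (0 : E 3) w) ?_ ?_ ?_
  · simpa [Fintype.sum_option, add_comm] using h2
  · rintro (_ | i) _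
    · simpa using hc
    · simp
  · simp [Fintype.sum_option]
  · rintro (_ | i) _
    · exact h0
    · exact hw i

/-- The linear equivalence sending the unit vectors to `v`. -/
noncomputable def eqv (v : Fin 3 → E 3) (hv : LinearIndependent ℝ v) : E 3 ≃L[ℝ] E 3 :=
  ((EuclideanSpace.basisFun (Fin 3) ℝ).toBasis.equiv
    (basisOfLinearIndependentOfCardEqFinrank hv (by simp)) (Equiv.refl _)).toContinuousLinearEquiv

lemma eqv_apply (v : Fin 3 → E 3) (hv : LinearIndependent ℝ v) (x : E 3) :
    eqv v hv x = ∑ i, x i • v i := by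
  have h : x = ∑ i, x i • (EuclideanSpace.basisFun (Fin 3) ℝ).toBasis i := by
    have := ((EuclideanSpace.basisFun (Fin 3) ℝ).toBasis.sum_repr x).symm
    simpa using this
  conv_lhs => rw [h]
  rw [map_sum]
  refine Finset.sum_congr rfl fun i _ => ?_
  rw [map_smul]
  congr 1
  show ((EuclideanSpace.basisFun (Fin 3) ℝ).toBasis.equiv
    (basisOfLinearIndependentOfCardEqFinrank hv (by simp)) (Equiv.refl _)) _ = _
  rw [Module.Basis.equiv_apply]
  simp

lemma octahedron_eq (v : Fin 3 → E 3) (hv : LinearIndependent ℝ v) :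
    octahedron v = eqv v hv '' oct := by
  apply Set.Subset.antisymm
  · refine convexHull_min ?_ (convex_oct.linear_image (eqv v hv : E 3 →ₗ[ℝ] E 3))
    rintro _ (⟨i, rfl⟩ | ⟨i, rfl⟩)
    · refine ⟨EuclideanSpace.single i 1, ?_, ?_⟩
      · show |_| + |_| + |_| ≤ (1 : ℝ)
        fin_cases i <;> simp
      · show eqv v hv _ = _
        rw [eqv_apply, Fin.sum_univ_three]
        fin_cases i <;> simp
    · refine ⟨EuclideanSpace.single i (-1), ?_, ?_⟩
      · show |_| + |_| + |_| ≤ (1 : ℝ)
        fin_cases i <;> simp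
      · show eqv v hv _ = _
        rw [eqv_apply, Fin.sum_univ_three]
        fin_cases i <;> simp
  · rintro _ ⟨x, hx, rfl⟩
    show eqv v hv x ∈ _
    rw [eqv_apply]
    refine comb_mem ?_
    rw [Fin.sum_univ_three]
    exact hx

theorem isBody_octahedron {v : Fin 3 → E 3} (hv : LinearIndependent ℝ v) :
    IsBody (octahedron v) := by
  rw [octahedron_eq v hv]
  exact isBody_image isBody_oct _

theorem turan_octahedron {v : Fin 3 → E 3} (hv : LinearIndependent ℝ v) :
    turan (octahedron v) = 2 ^ 3 / volume.real (octahedron v) := by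
  rw [octahedron_eq v hv, turan_image]
  norm_num

end Pool.Agent.MPbd65ca.Oct
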