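import Mathlib
import Pool.Agent.Lib.MP_bd65ca_an.Oct.Defs

/-!
# The octahedron is a Turán domain: Parseval and two weighted inequalities (module LIN)
-/

open Finset MeasureTheory

namespace Pool.Agent.MPbd65ca.Oct

namespace Lin

open Complex

theorem node_sum {m : ℕ} (hm : 0 < m) {k k' : ℕ} (hk : k < m) (hk' : k' < m) :
    ∑ l ∈ range m, exp (I * (k * (nd m l : ℝ))) * (starRingEnd ℂ) (exp (I * (k' * (nd m l : ℝ)))) =
      if k = k' then (m : ℂ) else 0 := by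
  have hm' : (m : ℂ) ≠ 0 := by exact_mod_cast hm.ne'
  set ζ : ℂ := exp (2 * Real.pi * I * (((k : ℤ) - (k' : ℤ) : ℤ) : ℂ) / m) with hζ
  have hterm : ∀ l ∈ range m, exp (I * (k * (nd m l : ℝ))) *
      (starRingEnd ℂ) (exp (I * (k' * (nd m l : ℝ)))) =
      exp (Real.pi * I * (((k : ℤ) - (k' : ℤ) : ℤ) : ℂ) / m) * ζ ^ l := by
    intro l _
    rw [hζ, ← exp_conj, ← exp_nat_mul, ← exp_add, ← exp_add]
    congr 1
    simp only [map_mul, conj_I, Complex.conj_ofReal, map_natCast, nd]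
    push_cast
    field_simp
    ring
  rw [Finset.sum_congr rfl hterm, ← Finset.mul_sum]
  split_ifs with h
  · subst h
    have h1 : ζ = 1 := by rw [hζ]; simp
    rw [h1]
    simp
  · have h1 : ζ ≠ 1 := by
      intro h2
      rw [hζ, exp_eq_one_iff] at h2
      obtain ⟨n, hn⟩ := h2
      have hpi : (Real.pi : ℂ) ≠ 0 := by exact_mod_cast Real.pi_ne_zero
      have h3 : ((((k : ℤ) - (k' : ℤ) : ℤ)) : ℂ) = ((n * m : ℤ) : ℂ) := by
        have hI : I ≠ 0 := I_ne_zero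
        have h4 : (2 * Real.pi * I) * ((((k : ℤ) - (k' : ℤ) : ℤ)) : ℂ) =
            (2 * Real.pi * I) * ((n * m : ℤ) : ℂ) := by
          have h5 := congrArg (fun z => z * (m : ℂ)) hn
          simp only [div_mul_cancel₀ _ hm'] at h5
          rw [h5]
          push_cast
          ring
        have h6 : (2 * Real.pi * I : ℂ) ≠ 0 := by
          simp [hpi, hI]
        exact mul_left_cancel₀ h6 h4
      have h7 : (k : ℤ) - (k' : ℤ) = n * m := by exact_mod_cast h3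
      have h8 : (m : ℤ) ∣ (k : ℤ) - (k' : ℤ) := ⟨n, by rw [h7]; ring⟩
      have h9 : (k : ℤ) - (k' : ℤ) = 0 := by
        apply Int.eq_zero_of_abs_lt_dvd h8
        rw [abs_lt]
        constructor <;> omega
      exact h (by omega)
    have h2 : ζ ^ m = 1 := by
      rw [hζ, ← exp_nat_mul, exp_eq_one_iff]
      refine ⟨(k : ℤ) - (k' : ℤ), ?_⟩
      field_simp
    rw [geom_sum_eq h1, h2]
    simp

/-- Bilinear Parseval identity. -/
theorem pars {m : ℕ} (hm : 0 < m) (x y : ℕ → ℂ) :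
    ∑ l ∈ range m, H m x (nd m l) * (starRingEnd ℂ) (H m y (nd m l)) =
      m * ∑ k ∈ range m, x k * (starRingEnd ℂ) (y k) := by
  have h1 : ∀ l ∈ range m, H m x (nd m l) * (starRingEnd ℂ) (H m y (nd m l)) =
      ∑ k ∈ range m, ∑ k' ∈ range m, (x k * (starRingEnd ℂ) (y k')) *
        (exp (I * (k * (nd m l : ℝ))) * (starRingEnd ℂ) (exp (I * (k' * (nd m l : ℝ))))) := by
    intro l _
    rw [H, H, map_sum, Finset.sum_mul_sum]
    refine Finset.sum_congr rfl fun k _ => Finset.sum_congr rfl fun k' _ => ?_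
    rw [map_mul]
    ring
  rw [Finset.sum_congr rfl h1, Finset.sum_comm, Finset.mul_sum]
  refine Finset.sum_congr rfl fun k hk => ?_
  rw [Finset.sum_comm]
  have h2 : ∀ k' ∈ range m, ∑ l ∈ range m, (x k * (starRingEnd ℂ) (y k')) *
        (exp (I * (k * (nd m l : ℝ))) * (starRingEnd ℂ) (exp (I * (k' * (nd m l : ℝ))))) =
      if k = k' then m * (x k * (starRingEnd ℂ) (y k')) else 0 := by
    intro k' hk'
    rw [← Finset.mul_sum, node_sum hm (mem_range.1 hk) (mem_range.1 hk')]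
    split_ifs
    · ring
    · simp
  rw [Finset.sum_congr rfl h2, Finset.sum_ite_eq, if_pos hk]

theorem normSq_ofReal (z : ℂ) : ((‖z‖ ^ 2 : ℝ) : ℂ) = z * (starRingEnd ℂ) z := by
  rw [Complex.mul_conj, Complex.normSq_eq_norm_sq]

theorem norm_exp_I (t : ℝ) : ‖exp (-(I * t))‖ = 1 := by
  have := Complex.norm_exp_ofReal_mul_I (-t)
  rw [← this]
  congr 2
  push_cast
  ring

theorem norm_one_sub_sq (t : ℝ) : ‖1 - exp (-(I * (2 * t)))‖ ^ 2 = 4 * Real.sin t ^ 2 := by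
  have h1 : exp (-(I * (2 * t))) = exp (-(I * t)) * exp (-(I * t)) := by
    rw [← exp_add]; congr 1; ring
  have h2 : exp (-(I * t)) = Real.cos t - Real.sin t * I := by
    have h3 : -(I * (t : ℂ)) = ((-t : ℝ) : ℂ) * I := by push_cast; ring
    rw [h3, exp_mul_I, ← Complex.ofReal_cos, ← Complex.ofReal_sin, Real.cos_neg, Real.sin_neg]
    push_cast
    ring
  rw [h1, h2, ← Complex.normSq_eq_norm_sq, Complex.normSq_apply]
  simp only [Complex.sub_re, Complex.sub_im, Complex.mul_re, Complex.mul_im, Complex.one_re,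
    Complex.one_im, Complex.ofReal_re, Complex.ofReal_im, Complex.I_re, Complex.I_im]
  have := Real.sin_sq_add_cos_sq t
  ring_nf
  nlinarith [this]

theorem norm_sub_sq' (a b : ℂ) : ‖a - b‖ ^ 2 = ‖a‖ ^ 2 - 2 * (a * (starRingEnd ℂ) b).re + ‖b‖ ^ 2 := by
  rw [← Complex.normSq_eq_norm_sq, ← Complex.normSq_eq_norm_sq, ← Complex.normSq_eq_norm_sq,
    Complex.normSq_sub]
  ring

theorem norm_add_sq' (a b : ℂ) : ‖a + b‖ ^ 2 = ‖a‖ ^ 2 + 2 * (a * (starRingEnd ℂ) b).re + ‖b‖ ^ 2 := by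
  rw [← Complex.normSq_eq_norm_sq, ← Complex.normSq_eq_norm_sq, ← Complex.normSq_eq_norm_sq,
    Complex.normSq_add]
  ring

theorem core {n : ℕ} (hn : 0 < n) (z : ℕ → ℂ) {v : ℝ} (hv : exp (I * (2 * n * v)) = -1) :
    wt n v * ‖∑ j ∈ range n, z j‖ ^ 2 +
      1 / 2 * ‖∑ j ∈ range n, z j * exp (-(I * (2 * j * v)))‖ ^ 2
      ≤ n * ∑ j ∈ range n, ‖z j‖ ^ 2 := by
  set e : ℕ → ℂ := fun j => exp (-(I * (2 * j * v))) with he
  have hen : ∀ j, e j * (starRingEnd ℂ) (e j) = 1 := by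
    intro j
    have h1 : ‖e j‖ = 1 := by
      have := norm_exp_I (2 * j * v)
      push_cast at this
      exact this
    rw [← normSq_ofReal, h1]
    simp
  set G : ℂ := ∑ j ∈ range n, e j with hG
  set ζ : ℂ := exp (-(I * (2 * v))) with hζ
  have heζ : ∀ j, e j = ζ ^ j := by
    intro j
    rw [hζ, ← exp_nat_mul]
    simp only [he]
    congr 1
    ring
  have hζn : ζ ^ n = -1 := by
    rw [hζ, ← exp_nat_mul]
    have h1 : (n : ℂ) * -(I * (2 * v)) = -(I * (2 * n * v)) := by ring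
    rw [h1, exp_neg, hv]
    norm_num
  have hG1 : G * (1 - ζ) = 2 := by
    rw [hG, Finset.sum_congr rfl fun j _ => heζ j]
    have := geom_sum_mul ζ n
    rw [hζn] at this
    linear_combination -this
  have hGs : ‖G‖ ^ 2 * Real.sin v ^ 2 = 1 := by
    have h1 : ‖G‖ ^ 2 * ‖1 - ζ‖ ^ 2 = 4 := by
      rw [← mul_pow, ← norm_mul, hG1]
      norm_num
    rw [hζ, norm_one_sub_sq] at h1
    linarith
  set γ : ℝ := ‖G‖ with hγ
  set w : ℝ := wt n v with hw
  have hn' : (0 : ℝ) < n := by exact_mod_cast hn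
  have hwγ : w * (n ^ 2 + γ ^ 2) = n ^ 2 := by
    have h1 : (1 : ℝ) + (n * Real.sin v) ^ 2 ≠ 0 := by positivity
    have h2 : w * (1 + (n * Real.sin v) ^ 2) = (n * Real.sin v) ^ 2 := by
      rw [hw, wt]
      exact div_mul_cancel₀ _ h1
    have h3 : w * (γ ^ 2 + n ^ 2 * (γ ^ 2 * Real.sin v ^ 2)) = n ^ 2 * (γ ^ 2 * Real.sin v ^ 2) := by
      linear_combination γ ^ 2 * h2
    rw [hGs] at h3
    linarith
  have hw0 : 0 ≤ w := by rw [hw, wt]; positivity
  set A : ℂ := ∑ j ∈ range n, z j with hA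
  set B : ℂ := ∑ j ∈ range n, z j * e j with hB
  set y : ℕ → ℂ := fun j => w * A + (1 / 2) * (B * (starRingEnd ℂ) (e j)) with hy
  have h0 : 0 ≤ ∑ j ∈ range n, ‖n * z j - y j‖ ^ 2 := Finset.sum_nonneg fun j _ => by positivity
  have h1 : ∑ j ∈ range n, ‖n * z j - y j‖ ^ 2 = n ^ 2 * ∑ j ∈ range n, ‖z j‖ ^ 2 -
      2 * n * (∑ j ∈ range n, z j * (starRingEnd ℂ) (y j)).re + ∑ j ∈ range n, ‖y j‖ ^ 2 := by
    rw [Complex.re_sum, Finset.mul_sum, Finset.mul_sum, ← Finset.sum_sub_distrib,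
      ← Finset.sum_add_distrib]
    refine Finset.sum_congr rfl fun j _ => ?_
    rw [norm_sub_sq', norm_mul, Complex.norm_natCast, mul_assoc (n : ℂ)]
    have : ((n : ℂ) * (z j * (starRingEnd ℂ) (y j))).re = n * (z j * (starRingEnd ℂ) (y j)).re := by
      simp [Complex.mul_re]
    rw [this]
    ring
  have h2 : (∑ j ∈ range n, z j * (starRingEnd ℂ) (y j)).re = w * ‖A‖ ^ 2 + 1 / 2 * ‖B‖ ^ 2 := by
    have h3 : ∑ j ∈ range n, z j * (starRingEnd ℂ) (y j) =
        ((w * ‖A‖ ^ 2 + 1 / 2 * ‖B‖ ^ 2 : ℝ) : ℂ) := by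
      have h4 : ∀ j ∈ range n, z j * (starRingEnd ℂ) (y j) =
          z j * (w * (starRingEnd ℂ) A) + (z j * e j) * ((1 / 2) * (starRingEnd ℂ) B) := by
        intro j _
        simp only [hy, map_add, map_mul, Complex.conj_ofReal, Complex.conj_conj, map_div₀,
          map_one, map_ofNat]
        ring
      rw [Finset.sum_congr rfl h4, Finset.sum_add_distrib, ← Finset.sum_mul, ← Finset.sum_mul,
        ← hA, ← hB]
      push_cast
      have h5 := normSq_ofReal A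
      have h6 := normSq_ofReal B
      push_cast at h5 h6
      rw [h5, h6]
      ring
    rw [h3, Complex.ofReal_re]
  have h3 : ∑ j ∈ range n, ‖y j‖ ^ 2 ≤ n * w ^ 2 * ‖A‖ ^ 2 + n * ‖B‖ ^ 2 / 4 +
      w * ‖A‖ * ‖B‖ * γ := by
    have h4 : ∀ j ∈ range n, ‖y j‖ ^ 2 = w ^ 2 * ‖A‖ ^ 2 + ‖B‖ ^ 2 / 4 +
        (w * A * (starRingEnd ℂ) B * e j).re := by
      intro j _
      have h5 : ‖B * (starRingEnd ℂ) (e j)‖ ^ 2 = ‖B‖ ^ 2 := by
        have h6 : ‖e j‖ ^ 2 = 1 := by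
          have := hen j
          rw [← normSq_ofReal] at this
          exact_mod_cast this
        rw [norm_mul, mul_pow, Complex.norm_conj, h6, mul_one]
      simp only [hy]
      rw [norm_add_sq', norm_mul, norm_mul, mul_pow, mul_pow, h5]
      have h7 : ‖(w : ℂ)‖ ^ 2 = w ^ 2 := by
        rw [Complex.norm_real, Real.norm_eq_abs, sq_abs]
      have h8 : ‖(1 / 2 : ℂ)‖ ^ 2 = 1 / 4 := by norm_num
      have h9 : w * A * (starRingEnd ℂ) ((1 / 2) * (B * (starRingEnd ℂ) (e j))) =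
          (1 / 2) * (w * A * (starRingEnd ℂ) B * e j) := by
        simp only [map_mul, Complex.conj_conj, map_div₀, map_one, map_ofNat]
        ring
      have h10 : ∀ q : ℂ, ((1 / 2 : ℂ) * q).re = 1 / 2 * q.re := by
        intro q
        simp [Complex.mul_re]
      rw [h7, h8, h9, h10]
      ring
    rw [Finset.sum_congr rfl h4, Finset.sum_add_distrib, Finset.sum_const, card_range,
      ← Complex.re_sum, ← Finset.mul_sum, ← hG]
    have h11 : (w * A * (starRingEnd ℂ) B * G).re ≤ w * ‖A‖ * ‖B‖ * γ := by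
      refine (Complex.re_le_norm _).trans ?_
      rw [norm_mul, norm_mul, norm_mul, Complex.norm_conj, Complex.norm_real, Real.norm_eq_abs,
        abs_of_nonneg hw0]
    rw [nsmul_eq_mul]
    nlinarith [h11]
  rw [h1, h2] at h0
  set a := ‖A‖
  set b := ‖B‖
  set Z := ∑ j ∈ range n, ‖z j‖ ^ 2
  set Y := ∑ j ∈ range n, ‖y j‖ ^ 2
  have h4 : n * Y ≤ n * (n * (w * a ^ 2 + 1 / 2 * b ^ 2)) := by
    have h5 : n * Y ≤ n * (n * w ^ 2 * a ^ 2 + n * b ^ 2 / 4 + w * a * b * γ) :=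
      mul_le_mul_of_nonneg_left h3 hn'.le
    have h6 : n * (n * (w * a ^ 2 + 1 / 2 * b ^ 2)) -
        n * (n * w ^ 2 * a ^ 2 + n * b ^ 2 / 4 + w * a * b * γ) = (w * γ * a - n * b / 2) ^ 2 := by
      linear_combination (-w * a ^ 2) * hwγ
    nlinarith [sq_nonneg (w * γ * a - n * b / 2)]
  have h5 : Y ≤ n * (w * a ^ 2 + 1 / 2 * b ^ 2) := le_of_mul_le_mul_left h4 hn'
  have h6 : 0 ≤ n * (n * Z - (w * a ^ 2 + 1 / 2 * b ^ 2)) := by nlinarith
  have h7 := nonneg_of_mul_nonneg_right h6 hn'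
  linarith

theorem sum_two_mul (f : ℕ → ℂ) (n : ℕ) :
    ∑ k ∈ range (2 * n), f k = ∑ j ∈ range n, f (2 * j) + ∑ j ∈ range n, f (2 * j + 1) := by
  induction n with
  | zero => simp
  | succ n ih =>
    rw [show 2 * (n + 1) = 2 * n + 1 + 1 by ring, Finset.sum_range_succ, Finset.sum_range_succ, ih,
      Finset.sum_range_succ _ n, Finset.sum_range_succ _ n]
    ring

theorem sum_two_mul_real (f : ℕ → ℝ) (n : ℕ) :
    ∑ k ∈ range (2 * n), f k = ∑ j ∈ range n, f (2 * j) + ∑ j ∈ range n, f (2 * j + 1) := by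
  induction n with
  | zero => simp
  | succ n ih =>
    rw [show 2 * (n + 1) = 2 * n + 1 + 1 by ring, Finset.sum_range_succ, Finset.sum_range_succ, ih,
      Finset.sum_range_succ _ n, Finset.sum_range_succ _ n]
    ring

theorem para (a b : ℂ) : ‖a + b‖ ^ 2 + ‖a - b‖ ^ 2 = 2 * (‖a‖ ^ 2 + ‖b‖ ^ 2) := by
  rw [norm_add_sq', norm_sub_sq']
  ring

theorem H_pair (n : ℕ) (x : ℕ → ℂ) (v : ℝ) :
    ‖H (2 * n) x (-v)‖ ^ 2 + ‖H (2 * n) x (Real.pi - v)‖ ^ 2 =
      2 * (‖∑ j ∈ range n, x (2 * j) * exp (-(I * (2 * j * v)))‖ ^ 2 +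
        ‖∑ j ∈ range n, x (2 * j + 1) * exp (-(I * (2 * j * v)))‖ ^ 2) := by
  have hE : exp (Real.pi * I) = -1 := exp_pi_mul_I
  have h1 : H (2 * n) x (-v) = ∑ j ∈ range n, x (2 * j) * exp (-(I * (2 * j * v))) +
      exp (-(I * v)) * ∑ j ∈ range n, x (2 * j + 1) * exp (-(I * (2 * j * v))) := by
    rw [H, sum_two_mul, Finset.mul_sum]
    congr 1
    · refine Finset.sum_congr rfl fun j _ => ?_
      congr 2
      push_cast
      ring
    · refine Finset.sum_congr rfl fun j _ => ?_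
      have h3 : I * (((2 * j + 1 : ℕ) : ℂ) * ((-v : ℝ) : ℂ)) = -(I * v) + -(I * (2 * j * v)) := by
        push_cast
        ring
      rw [h3, exp_add]
      ring
  have h2 : H (2 * n) x (Real.pi - v) = ∑ j ∈ range n, x (2 * j) * exp (-(I * (2 * j * v))) -
      exp (-(I * v)) * ∑ j ∈ range n, x (2 * j + 1) * exp (-(I * (2 * j * v))) := by
    rw [H, sum_two_mul, Finset.mul_sum,
      sub_eq_add_neg (∑ j ∈ range n, x (2 * j) * exp (-(I * (2 * j * v)))),
      ← Finset.sum_neg_distrib]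
    have hj : ∀ j : ℕ, exp ((2 * j : ℕ) * (Real.pi * I)) = 1 := by
      intro j
      rw [exp_nat_mul, hE, pow_mul]
      simp
    have hj' : ∀ j : ℕ, exp ((2 * j + 1 : ℕ) * (Real.pi * I)) = -1 := by
      intro j
      rw [exp_nat_mul, hE, pow_succ, pow_mul]
      simp
    congr 1
    · refine Finset.sum_congr rfl fun j _ => ?_
      have h3 : I * (((2 * j : ℕ) : ℂ) * ((Real.pi - v : ℝ) : ℂ)) =
          (2 * j : ℕ) * (Real.pi * I) + -(I * (2 * j * v)) := by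
        push_cast
        ring
      rw [h3, exp_add, hj, one_mul]
    · refine Finset.sum_congr rfl fun j _ => ?_
      have h3 : I * (((2 * j + 1 : ℕ) : ℂ) * ((Real.pi - v : ℝ) : ℂ)) =
          (2 * j + 1 : ℕ) * (Real.pi * I) + (-(I * v) + -(I * (2 * j * v))) := by
        push_cast
        ring
      rw [h3, exp_add, hj', exp_add]
      ring
  rw [h1, h2, para, norm_mul, norm_exp_I, one_mul]

end Lin

theorem pair_ineq {n : ℕ} (hn : 0 < n) (x : ℕ → ℂ) {v : ℝ}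
    (hv : Complex.exp (Complex.I * (2 * n * v)) = -1) :
    wt n v * (‖H (2 * n) x 0‖ ^ 2 + ‖H (2 * n) x Real.pi‖ ^ 2)
      + 1 / 2 * (‖H (2 * n) x (-v)‖ ^ 2 + ‖H (2 * n) x (Real.pi - v)‖ ^ 2)
      ≤ 2 * n * ∑ k ∈ range (2 * n), ‖x k‖ ^ 2 := by
  have h0 := Lin.H_pair n x 0
  rw [neg_zero, sub_zero] at h0
  have h1 := Lin.H_pair n x v
  have c0 := Lin.core hn (fun j => x (2 * j)) hv
  have c1 := Lin.core hn (fun j => x (2 * j + 1)) hv
  rw [h0, h1, Lin.sum_two_mul_real]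
  simp only [Complex.ofReal_zero, mul_zero, neg_zero, Complex.exp_zero, mul_one]
  linarith

theorem parseval {m : ℕ} (hm : 0 < m) (x : ℕ → ℂ) :
    ∑ l ∈ range m, ‖H m x (nd m l)‖ ^ 2 = m * ∑ k ∈ range m, ‖x k‖ ^ 2 := by
  have h := Lin.pars hm x x
  apply Complex.ofReal_injective
  push_cast
  simp only [← Complex.ofReal_pow, Lin.normSq_ofReal]
  exact h

namespace Lin

open Complex

theorem norm_one_sub (v : ℝ) : ‖1 - exp (I * v)‖ ^ 2 = 4 * Real.sin (v / 2) ^ 2 := by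
  have h := norm_one_sub_sq (-(v / 2))
  rw [Real.sin_neg, neg_sq] at h
  rw [← h]
  congr 4
  push_cast
  ring

theorem norm_one_add (v : ℝ) : ‖1 + exp (I * v)‖ ^ 2 = 4 * Real.cos (v / 2) ^ 2 := by
  have h := norm_one_sub_sq (Real.pi / 2 - v / 2)
  rw [Real.sin_pi_div_two_sub] at h
  rw [← h]
  congr 2
  have h1 : -(I * (2 * ((Real.pi / 2 - v / 2 : ℝ) : ℂ))) = I * v - Real.pi * I := by
    push_cast
    ring
  rw [h1, exp_sub, exp_pi_mul_I]
  ring

theorem H_eq_pow (m : ℕ) (x : ℕ → ℂ) (v : ℝ) :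
    H m x v = ∑ k ∈ range m, x k * exp (I * v) ^ k := by
  rw [H]
  refine Finset.sum_congr rfl fun k _ => ?_
  rw [← exp_nat_mul]
  congr 2
  ring

theorem nd_pow {m : ℕ} (hm : 0 < m) (l : ℕ) : exp (I * (nd m l : ℝ)) ^ m = -1 := by
  have hm' : (m : ℂ) ≠ 0 := by exact_mod_cast hm.ne'
  rw [← exp_nat_mul, nd]
  have h1 : (m : ℂ) * (I * ((Real.pi * (2 * l + 1) / m : ℝ) : ℂ)) =
      l * (2 * Real.pi * I) + Real.pi * I := by
    push_cast
    field_simp
  rw [h1, exp_add, exp_nat_mul_two_pi_mul_I, exp_pi_mul_I, one_mul]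

theorem sum_pow (m : ℕ) (ω : ℂ) : (∑ k ∈ range m, ω ^ k) * (1 - ω) = 1 - ω ^ m := by
  have := geom_sum_mul ω m
  linear_combination -this

theorem sum_k_pow (m : ℕ) (ω : ℂ) :
    (∑ k ∈ range m, (k : ℂ) * ω ^ k) * (1 - ω) = (∑ k ∈ range m, ω ^ k) - 1 - (m - 1) * ω ^ m := by
  induction m with
  | zero => simp
  | succ m ih =>
    rw [Finset.sum_range_succ, Finset.sum_range_succ, add_mul, ih]
    push_cast
    ring

theorem sum_sq (N : ℕ) (a : ℝ) : ∑ k ∈ range N, ((k : ℝ) - a) ^ 2 =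
    N * (N - 1) * (2 * N - 1) / 6 - a * (N * (N - 1)) + N * a ^ 2 := by
  induction N with
  | zero => simp
  | succ N ih =>
    rw [Finset.sum_range_succ, ih]
    push_cast
    ring

end Lin

theorem node_ineq {n : ℕ} (hn : 0 < n) (x : ℕ → ℂ) :
    ‖H (2 * n) x 0‖ ^ 2 ≤ (4 / 3 + 2 / (3 * (n : ℝ) ^ 2)) *
      ∑ l ∈ range (2 * n), wt n (nd (2 * n) l) * ‖H (2 * n) x (nd (2 * n) l)‖ ^ 2 := by
  have hm : 0 < 2 * n := by omega
  have hn' : (0 : ℝ) < n := by exact_mod_cast hn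
  set S : ℕ → ℂ := fun l => H (2 * n) (fun _ => 1) (nd (2 * n) l) with hS
  set T : ℕ → ℂ := fun l => H (2 * n) (fun k => (-1) ^ k) (nd (2 * n) l) with hT
  set R : ℕ → ℂ := fun l => H (2 * n) (fun k => (((k : ℝ) - n : ℝ) : ℂ)) (nd (2 * n) l) with hR
  set W : ℕ → ℝ := fun l => wt n (nd (2 * n) l) with hW
  -- the three sums
  have sA : ∑ l ∈ range (2 * n), ‖S l‖ ^ 2 = 4 * n ^ 2 := by
    rw [hS, parseval hm]
    simp
    ring
  have sB : ∑ l ∈ range (2 * n), ‖T l‖ ^ 2 = 4 * n ^ 2 := by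
    rw [hT, parseval hm]
    simp
    ring
  have sC : ∑ l ∈ range (2 * n), ‖R l‖ ^ 2 = 2 * n * (n * (2 * n ^ 2 + 1) / 3) := by
    rw [hR, parseval hm]
    have h1 : ∀ k ∈ range (2 * n), ‖((((k : ℝ) - n : ℝ)) : ℂ)‖ ^ 2 = ((k : ℝ) - n) ^ 2 := by
      intro k _
      rw [Complex.norm_real, Real.norm_eq_abs, sq_abs]
    rw [Finset.sum_congr rfl h1, Lin.sum_sq]
    push_cast
    ring
  -- pointwise identity
  have key : ∀ l ∈ range (2 * n), W l * (‖S l‖ ^ 2 + 1 / (4 * n ^ 2) *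
      (‖S l‖ ^ 2 + ‖T l‖ ^ 2 + 4 * ‖R l‖ ^ 2)) = ‖S l‖ ^ 2 := by
    intro l _
    set v := nd (2 * n) l with hv
    set ω : ℂ := Complex.exp (Complex.I * v) with hω
    have hωm : ω ^ (2 * n) = -1 := Lin.nd_pow hm l
    have eS : S l * (1 - ω) = 2 := by
      simp only [hS, Lin.H_eq_pow, one_mul]
      rw [Lin.sum_pow, hωm]
      norm_num
    have eT : T l * (1 + ω) = 2 := by
      have h1 : T l = ∑ k ∈ range (2 * n), (-ω) ^ k := by
        simp only [hT, Lin.H_eq_pow]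
        refine Finset.sum_congr rfl fun k _ => ?_
        rw [neg_pow ω k]
      have h2 := Lin.sum_pow (2 * n) (-ω)
      rw [h1]
      rw [show (1 : ℂ) - -ω = 1 + ω by ring, Even.neg_pow ⟨n, by ring⟩, hωm] at h2
      rw [h2]
      norm_num
    have eR : R l * (1 - ω) ^ 2 = 2 * ω := by
      have h1 : R l = (∑ k ∈ range (2 * n), (k : ℂ) * ω ^ k) - n * S l := by
        simp only [hR, hS, Lin.H_eq_pow, Finset.mul_sum, ← Finset.sum_sub_distrib]
        refine Finset.sum_congr rfl fun k _ => ?_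
        push_cast
        ring
      have h2 := Lin.sum_k_pow (2 * n) ω
      have h3 : S l = ∑ k ∈ range (2 * n), ω ^ k := by
        simp only [hS, Lin.H_eq_pow, one_mul]
        rfl
      rw [← h3, hωm] at h2
      rw [h1]
      push_cast at h2
      linear_combination (1 - ω) * h2 + (1 - n * (1 - ω)) * eS
    have nω : ‖ω‖ = 1 := by
      rw [hω, mul_comm]
      exact Complex.norm_exp_ofReal_mul_I v
    set σ := Real.sin (v / 2) ^ 2 with hσ
    set κ := Real.cos (v / 2) ^ 2 with hκ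
    have hσκ : σ + κ = 1 := Real.sin_sq_add_cos_sq _
    have nS : ‖S l‖ ^ 2 * σ = 1 := by
      have h1 : ‖S l‖ ^ 2 * ‖1 - ω‖ ^ 2 = 4 := by
        rw [← mul_pow, ← norm_mul, eS]
        norm_num
      rw [hω, Lin.norm_one_sub] at h1
      linarith
    have nT : ‖T l‖ ^ 2 * κ = 1 := by
      have h1 : ‖T l‖ ^ 2 * ‖1 + ω‖ ^ 2 = 4 := by
        rw [← mul_pow, ← norm_mul, eT]
        norm_num
      rw [hω, Lin.norm_one_add] at h1
      linarith
    have nR : 4 * ‖R l‖ ^ 2 * σ ^ 2 = 1 := by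
      have h1 : ‖R l‖ ^ 2 * (‖1 - ω‖ ^ 2) ^ 2 = 4 := by
        have h2 : ‖R l‖ * ‖1 - ω‖ ^ 2 = 2 := by
          rw [← norm_pow, ← norm_mul, eR, norm_mul, nω]
          norm_num
        calc ‖R l‖ ^ 2 * (‖1 - ω‖ ^ 2) ^ 2 = (‖R l‖ * ‖1 - ω‖ ^ 2) ^ 2 := by ring
          _ = 4 := by rw [h2]; norm_num
      rw [hω, Lin.norm_one_sub] at h1
      linear_combination h1 / 4
    have hsin : Real.sin v ^ 2 = 4 * (σ * κ) := by
      have h1 : Real.sin v = 2 * Real.sin (v / 2) * Real.cos (v / 2) := by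
        rw [← Real.sin_two_mul]
        congr 1
        ring
      rw [h1, hσ, hκ]
      ring
    have hWl : W l * (1 + 4 * n ^ 2 * (σ * κ)) = 4 * n ^ 2 * (σ * κ) := by
      have h1 : (1 : ℝ) + (n * Real.sin v) ^ 2 ≠ 0 := by positivity
      have h2 : W l * (1 + (n * Real.sin v) ^ 2) = (n * Real.sin v) ^ 2 := by
        simp only [hW, wt]
        exact div_mul_cancel₀ _ h1
      rw [mul_pow, hsin] at h2
      linear_combination h2
    have hσ0 : σ ≠ 0 := by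
      intro h0
      rw [h0] at nS
      simp at nS
    have hκ0 : κ ≠ 0 := by
      intro h0
      rw [h0] at nT
      simp at nT
    have hS' : ‖S l‖ ^ 2 = 1 / σ := by field_simp; linarith
    have hT' : ‖T l‖ ^ 2 = 1 / κ := by field_simp; linarith
    have hR' : 4 * ‖R l‖ ^ 2 = 1 / σ ^ 2 := by field_simp; linarith
    rw [hS', hT', hR']
    have hκ' : κ = 1 - σ := by linarith
    field_simp
    have h3 : σ + κ + σ * κ = 1 + σ * κ := by linarith
    have h4 : σ * κ + σ ^ 2 + κ = 1 := by rw [hκ']; ring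
    linear_combination hWl + W l * h4
  have hW0 : ∀ l, 0 ≤ W l := fun l => by simp only [hW, wt]; positivity
  -- the value at 0
  have h0 : (2 * n : ℝ) * ‖H (2 * n) x 0‖ ≤
      ∑ l ∈ range (2 * n), ‖H (2 * n) x (nd (2 * n) l)‖ * ‖S l‖ := by
    have h1 := Lin.pars hm x (fun _ => 1)
    have h2 : H (2 * n) x 0 = ∑ k ∈ range (2 * n), x k * (starRingEnd ℂ) 1 := by
      simp [H]
    rw [← h2] at h1
    have h3 : (2 * n : ℝ) * ‖H (2 * n) x 0‖ = ‖((2 * n : ℕ) : ℂ) * H (2 * n) x 0‖ := by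
      rw [norm_mul, Complex.norm_natCast]
      push_cast
      ring
    rw [h3, ← h1]
    refine (norm_sum_le _ _).trans (le_of_eq ?_)
    refine Finset.sum_congr rfl fun l _ => ?_
    rw [norm_mul, Complex.norm_conj]
  have h1 : (∑ l ∈ range (2 * n), ‖H (2 * n) x (nd (2 * n) l)‖ * ‖S l‖) ^ 2 ≤
      (∑ l ∈ range (2 * n), W l * ‖H (2 * n) x (nd (2 * n) l)‖ ^ 2) *
      ∑ l ∈ range (2 * n), (‖S l‖ ^ 2 + 1 / (4 * n ^ 2) *
        (‖S l‖ ^ 2 + ‖T l‖ ^ 2 + 4 * ‖R l‖ ^ 2)) := by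
    refine Finset.sum_sq_le_sum_mul_sum_of_sq_le_mul _ (fun l _ => ?_) (fun l _ => ?_)
      fun l hl => ?_
    · exact mul_nonneg (hW0 l) (sq_nonneg _)
    · positivity
    · refine le_of_eq ?_
      linear_combination (-‖H (2 * n) x (nd (2 * n) l)‖ ^ 2) * key l hl
  have h2 : ∑ l ∈ range (2 * n), (‖S l‖ ^ 2 + 1 / (4 * n ^ 2) *
        (‖S l‖ ^ 2 + ‖T l‖ ^ 2 + 4 * ‖R l‖ ^ 2)) = (2 * n) ^ 2 * (4 / 3 + 2 / (3 * (n : ℝ) ^ 2)) := by
    rw [Finset.sum_add_distrib, ← Finset.mul_sum, Finset.sum_add_distrib, Finset.sum_add_distrib,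
      ← Finset.mul_sum, sA, sB, sC]
    field_simp
    ring
  rw [h2] at h1
  have h3 : ((2 * n : ℝ) * ‖H (2 * n) x 0‖) ^ 2 ≤
      (∑ l ∈ range (2 * n), ‖H (2 * n) x (nd (2 * n) l)‖ * ‖S l‖) ^ 2 := by
    gcongr
  have h4 := h3.trans h1
  have h5 : (0 : ℝ) < (2 * n) ^ 2 := by positivity
  refine le_of_mul_le_mul_left ?_ h5
  calc _ = ((2 * n : ℝ) * ‖H (2 * n) x 0‖) ^ 2 := by ring
    _ ≤ _ := h4
    _ = _ := by ring

end Pool.Agent.MPbd65ca.Oct
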