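import Pool.Agent.Lib.MP_bd65ca_an.Oct.Cont
import Pool.Agent.Lib.MP_bd65ca_an.Gap

/-!
# The octahedron is a Turán domain
-/

open Finset MeasureTheory Filter FourierTransform
open scoped RealInnerProductSpace Topology

namespace Pool.Agent.MPbd65ca.Oct

lemma isClosed_oct : IsClosed oct := by
  unfold oct
  exact isClosed_le (by fun_prop) continuous_const

lemma norm_le_of_mem {ξ : E 3} (h : ξ ∈ oct) : ‖ξ‖ ≤ 1 := by
  have h' : |ξ 0| + |ξ 1| + |ξ 2| ≤ 1 := h
  rw [EuclideanSpace.norm_eq, Fin.sum_univ_three, Real.sqrt_le_one]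
  simp only [Real.norm_eq_abs]
  have h0 := abs_nonneg (ξ 0)
  have h1 := abs_nonneg (ξ 1)
  have h2 := abs_nonneg (ξ 2)
  nlinarith

lemma isCompact_oct : IsCompact oct := by
  refine (isCompact_closedBall (0 : E 3) 1).of_isClosed_subset isClosed_oct fun ξ hξ => ?_
  simpa using norm_le_of_mem hξ

lemma convex_oct : Convex ℝ oct := by
  intro ξ hξ η hη a b ha hb hab
  have h1 : |ξ 0| + |ξ 1| + |ξ 2| ≤ 1 := hξ
  have h2 : |η 0| + |η 1| + |η 2| ≤ 1 := hη
  show |a * ξ 0 + b * η 0| + |a * ξ 1 + b * η 1| + |a * ξ 2 + b * η 2| ≤ 1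
  have e : ∀ i, |a * ξ i + b * η i| ≤ a * |ξ i| + b * |η i| := fun i =>
    (abs_add_le _ _).trans (by rw [abs_mul, abs_mul, abs_of_nonneg ha, abs_of_nonneg hb])
  nlinarith [e 0, e 1, e 2]

lemma isBody_oct : IsBody oct := by
  refine ⟨isCompact_oct, convex_oct, ⟨0, ?_⟩, fun ξ hξ => ?_⟩
  · rw [mem_interior_iff_mem_nhds]
    have : {ξ : E 3 | |ξ 0| + |ξ 1| + |ξ 2| < 1} ∈ 𝓝 (0 : E 3) :=
      (isOpen_lt (by fun_prop) continuous_const).mem_nhds (by simp)
    exact mem_of_superset this fun ξ (hξ : |ξ 0| + |ξ 1| + |ξ 2| < 1) => show |ξ 0| + |ξ 1| + |ξ 2| ≤ 1 from hξ.le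
  · have h1 : |ξ 0| + |ξ 1| + |ξ 2| ≤ 1 := hξ
    show |(-ξ) 0| + |(-ξ) 1| + |(-ξ) 2| ≤ 1
    simpa using h1

lemma isBody_image {d : ℕ} {K : Set (E d)} (h : IsBody K) (A : E d ≃L[ℝ] E d) : IsBody (A '' K) := by
  refine ⟨h.isCompact.image A.continuous, h.convex.linear_image (A : E d →ₗ[ℝ] E d), ?_, ?_⟩
  · obtain ⟨x, hx⟩ := h.nonempty_interior
    have : interior (A '' K) = A '' interior K := (A.toHomeomorph.image_interior K).symm
    rw [this]
    exact ⟨A x, x, hx, rfl⟩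
  · rintro _ ⟨x, hx, rfl⟩
    exact ⟨-x, h.neg_mem x hx, map_neg A x⟩

lemma volume_image (A : E 3 ≃L[ℝ] E 3) :
    volume.real (A '' oct) = |LinearMap.det (A : E 3 →ₗ[ℝ] E 3)| * (4 / 3) := by
  have h := MeasureTheory.Measure.addHaar_image_linearMap (volume : Measure (E 3))
    (A : E 3 →ₗ[ℝ] E 3) oct
  have h' : (A : E 3 → E 3) '' oct = ((A : E 3 →ₗ[ℝ] E 3) : E 3 → E 3) '' oct := rfl
  rw [Measure.real, h', h, ENNReal.toReal_mul, ENNReal.toReal_ofReal (abs_nonneg _)]
  congr 1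
  exact volume_oct

theorem turan_image (A : E 3 ≃L[ℝ] E 3) : turan (A '' oct) = 8 / volume.real (A '' oct) := by
  have hB : IsBody (A '' oct) := isBody_image isBody_oct A
  have hdet : LinearMap.det (A : E 3 →ₗ[ℝ] E 3) ≠ 0 := by
    have := A.toLinearEquiv.isUnit_det'
    exact this.ne_zero
  have hdpos : 0 < |LinearMap.det (A : E 3 →ₗ[ℝ] E 3)| := abs_pos.mpr hdet
  refine le_antisymm ?_ ?_
  · obtain ⟨F, hF, hFi⟩ := cls_trivial hB
    refine (turan_le_integral hF).trans (hFi.trans (le_of_eq ?_))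
    norm_num
  · obtain ⟨F₀, hF₀, -⟩ := cls_trivial hB
    refine le_csInf ⟨_, ⟨F₀, hF₀, rfl⟩⟩ ?_
    rintro _ ⟨F, ⟨hc, hi, h0, h1, hs⟩, rfl⟩
    simp only
    set f : E 3 → ℂ := 𝓕 (fun x => (F x : ℂ)) with hf
    have hf0 : ∀ ξ ∉ A '' oct, f ξ = 0 := fun ξ hξ => by
      by_contra hne
      exact hξ (hs (subset_tsupport _ hne))
    have hfc : Continuous f :=
      VectorFourier.fourierIntegral_continuous Real.continuous_fourierChar
        (by exact continuous_inner) hi.ofReal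
    have hfi : Integrable f :=
      hfc.integrable_of_hasCompactSupport (HasCompactSupport.intro hB.isCompact hf0)
    have hinv : 𝓕⁻ f 0 = (F 0 : ℂ) := by
      have := Continuous.fourierInv_fourier_eq (f := fun x => (F x : ℂ)) (by fun_prop) hi.ofReal hfi
      rw [← hf] at this
      rw [this]
    have hint : F 0 = ∫ ξ, (f ξ).re := by
      rw [Real.fourierInv_eq'] at hinv
      simp only [inner_zero_right, mul_zero, Complex.ofReal_zero, zero_mul, Complex.exp_zero,
        one_smul] at hinv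
      have := integral_re hfi
      simp only [RCLike.re_eq_complex_re] at this
      rw [this, hinv, Complex.ofReal_re]
    have hmap := MeasureTheory.Measure.map_linearMap_addHaar_eq_smul_addHaar
      (volume : Measure (E 3)) hdet
    have hchange : ∫ η, (f (A η)).re = |(LinearMap.det (A : E 3 →ₗ[ℝ] E 3))⁻¹| * ∫ ξ, (f ξ).re := by
      have h2 : ∫ η, (f (A η)).re = ∫ ξ, (f ξ).re ∂(Measure.map (A : E 3 →ₗ[ℝ] E 3) volume) := by
        rw [integral_map]
        · rfl
        · exact A.continuous.measurable.aemeasurable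
        · exact (Complex.continuous_re.comp hfc).aestronglyMeasurable
      rw [h2, hmap, integral_smul_measure, ENNReal.toReal_ofReal (abs_nonneg _), smul_eq_mul]
    have hmain := main_ineq A hc hi h0 hf0
    rw [← hf, hchange, ← hint, abs_inv] at hmain
    rw [volume_image, div_le_iff₀ (by positivity)]
    have h3 : F 0 ≤ |LinearMap.det (A : E 3 →ₗ[ℝ] E 3)| * (1 / 6 * ∫ x, F x) := by
      rwa [inv_mul_le_iff₀ hdpos] at hmain
    linarith

end Pool.Agent.MPbd65ca.Oct
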